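import Pool.Agent.W938.QM.Core

/-!
# Certificates of typical points, with weights for blocks of coordinates
-/

set_option autoImplicit false
set_option linter.unusedSectionVars false

namespace Pool.Agent.W938.QB

open Finset Pool.Agent.H722R2.AA Pool.Agent.H746R2.AA Pool.Agent.H703R2.AA Pool.Agent.H703R2.AA.Pr
open Pool.Agent.W938.CQ Pool.Agent.W938.QM

variable {n : ℕ} {P : Type} [Fintype P]

/-- The total weight of the blocks with weight in `[δ', δ)`. -/
noncomputable def mid (q : P → ℝ) (δ' δ : ℝ) : ℝ := ∑ ρ, q ρ * ind (δ' ≤ q ρ ∧ q ρ < δ)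

/-- Some scale carries little weight. -/
lemma scale (q : P → ℝ) (hq : ∀ ρ, 0 ≤ q ρ) (r θ : ℝ) (hr : ∑ ρ, q ρ ≤ r) (J : ℕ)
    (hJ : 1 ≤ J) (hJ2 : 2 * r ≤ J * θ) (δ : ℕ → ℝ) (hδ : ∀ j, δ (j + 1) ≤ δ j) :
    ∃ j < J, mid q (δ (j + 1)) (δ j) ≤ θ / 2 := by
  by_contra hc
  push Not at hc
  have h1 : ∑ j ∈ Finset.range J, mid q (δ (j + 1)) (δ j) ≤ r := by
    refine le_trans ?_ hr
    unfold mid
    rw [Finset.sum_comm]
    refine Finset.sum_le_sum fun i _ => ?_
    rw [← Finset.mul_sum]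
    have h2 : ∑ j ∈ Finset.range J, ind (δ (j + 1) ≤ q i ∧ q i < δ j) ≤ 1 := by
      have h3 : ∀ j, ind (δ (j + 1) ≤ q i ∧ q i < δ j) = ind (δ (j + 1) ≤ q i) - ind (δ j ≤ q i) := by
        intro j
        unfold ind
        have := hδ j
        by_cases ha : δ (j + 1) ≤ q i
        · by_cases hb : q i < δ j
          · rw [if_pos ⟨ha, hb⟩, if_pos ha, if_neg (not_le.2 hb)]
            norm_num
          · rw [if_neg (fun h => hb h.2), if_pos ha, if_pos (not_lt.1 hb)]
            norm_num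
        · rw [if_neg (fun h => ha h.1), if_neg ha, if_neg (fun h => ha (this.trans h))]
          norm_num
      rw [Finset.sum_congr rfl fun j _ => h3 j, Finset.sum_range_sub (fun j => ind (δ j ≤ q i)) J]
      have h4 := ind_le_one (δ J ≤ q i)
      have h5 := ind_nonneg (δ 0 ≤ q i)
      linarith
    calc q i * ∑ j ∈ Finset.range J, ind (δ (j + 1) ≤ q i ∧ q i < δ j) ≤ q i * 1 :=
          mul_le_mul_of_nonneg_left h2 (hq i)
      _ = q i := mul_one _
  have h2 : ∑ _j ∈ Finset.range J, θ / 2 < ∑ j ∈ Finset.range J, mid q (δ (j + 1)) (δ j) := by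
    refine Finset.sum_lt_sum_of_nonempty ?_ fun j hj => hc j (Finset.mem_range.1 hj)
    rw [Finset.nonempty_range_iff]
    omega
  rw [Finset.sum_const, nsmul_eq_mul, Finset.card_range] at h2
  linarith

open Classical in
/-- The base set together with the blocks of weight at least `δ`. -/
noncomputable def hv (B : Finset (Fin n)) (S : P → Finset (Fin n)) (q : P → ℝ) (δ : ℝ) :
    Finset (Fin n) :=
  B ∪ (Finset.univ.filter fun ρ => δ ≤ q ρ).biUnion S

lemma card_hv (B : Finset (Fin n)) (S : P → Finset (Fin n)) (q : P → ℝ) (hq : ∀ ρ, 0 ≤ q ρ)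
    (t ℓ : ℕ) (hB : B.card ≤ t) (hS : ∀ ρ, (S ρ).card ≤ ℓ) (r δ : ℝ) (hr : ∑ ρ, q ρ ≤ r)
    (hδ : 0 < δ) : ((hv B S q δ).card : ℝ) ≤ t + ℓ * (r / δ) := by
  classical
  have h1 : ((Finset.univ.filter fun ρ => δ ≤ q ρ).card : ℝ) ≤ r / δ := by
    rw [le_div_iff₀ hδ]
    calc ((Finset.univ.filter fun ρ => δ ≤ q ρ).card : ℝ) * δ
        = ∑ _ρ ∈ Finset.univ.filter fun ρ => δ ≤ q ρ, δ := by
          rw [Finset.sum_const, nsmul_eq_mul]
      _ ≤ ∑ ρ ∈ Finset.univ.filter fun ρ => δ ≤ q ρ, q ρ :=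
          Finset.sum_le_sum fun ρ hρ => (Finset.mem_filter.1 hρ).2
      _ ≤ ∑ ρ, q ρ := Finset.sum_le_sum_of_subset_of_nonneg (Finset.subset_univ _)
          fun ρ _ _ => hq ρ
      _ ≤ r := hr
  have h2 : (hv B S q δ).card ≤ t + (Finset.univ.filter fun ρ => δ ≤ q ρ).card * ℓ := by
    unfold hv
    refine (Finset.card_union_le _ _).trans (Nat.add_le_add hB ?_)
    refine (Finset.card_biUnion_le).trans ?_
    refine (Finset.sum_le_sum fun ρ _ => hS ρ).trans ?_
    rw [Finset.sum_const, smul_eq_mul]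
  have h3 : ((hv B S q δ).card : ℝ) ≤ t + (Finset.univ.filter fun ρ => δ ≤ q ρ).card * ℓ := by
    exact_mod_cast h2
  have h4 : ((Finset.univ.filter fun ρ => δ ≤ q ρ).card : ℝ) * ℓ ≤ r / δ * ℓ :=
    mul_le_mul_of_nonneg_right h1 (Nat.cast_nonneg _)
  linarith

open Classical in
/-- The use of the inequality of Talagrand. -/
lemma step (Yes No : (Fin n → ℤˣ) → Prop) (B : (Fin n → ℤˣ) → Finset (Fin n))
    (S : (Fin n → ℤˣ) → P → Finset (Fin n)) (Q : (Fin n → ℤˣ) → P → ℝ)
    (hQ : ∀ x ρ, 0 ≤ Q x ρ) (r θ : ℝ) (ℓ μ : ℕ) (hr0 : 0 < r) (hℓ : 1 ≤ ℓ) (hμ1 : 1 ≤ μ)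
    (hr : ∀ x, Yes x → ∑ ρ, Q x ρ ≤ r) (hS : ∀ x, Yes x → ∀ ρ, (S x ρ).card ≤ ℓ)
    (hμ : ∀ x, Yes x → ∀ i, (Finset.univ.filter fun ρ => i ∈ S x ρ).card ≤ μ)
    (hθ : 0 < θ) (hfar : ∀ x y, Yes x → No y → (∀ i ∈ B x, x i = y i) →
      θ ≤ ∑ ρ, Q x ρ * ind (∃ i ∈ S x ρ, x i ≠ y i))
    (δ' δ : ℝ) (hδ' : 0 < δ') (H : Finset (Fin n)) (a : Fin n → ℤˣ) :
    Pb (fun y => No (spl H a y)) * Pb (fun y => Yes (spl H a y) ∧
      H = hv (B (spl H a y)) (S (spl H a y)) (Q (spl H a y)) δ ∧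
      mid (Q (spl H a y)) δ' δ ≤ θ / 2) ≤ Real.exp (-(θ ^ 2 / (16 * (μ * ℓ * r * δ')))) := by
  have hℓ0 : (0 : ℝ) < ℓ := by exact_mod_cast hℓ
  have hμ0 : (0 : ℝ) < μ := by exact_mod_cast hμ1
  set w : (Fin n → ℤˣ) → P → Fin n → ℝ := fun y ρ i =>
    if i ∈ S (spl H a y) ρ ∧ Q (spl H a y) ρ < δ' then Q (spl H a y) ρ else 0 with hw
  have hw0 : ∀ y ρ i, 0 ≤ w y ρ i := by
    intro y ρ i
    simp only [hw]
    split_ifs
    · exact hQ _ _
    · exact le_rfl
  have key := tal_use (fun y => No (spl H a y)) (fun y => Yes (spl H a y) ∧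
      H = hv (B (spl H a y)) (S (spl H a y)) (Q (spl H a y)) δ ∧
      mid (Q (spl H a y)) δ' δ ≤ θ / 2)
    (fun y i => if i ∈ H then 0 else ∑ ρ, w y ρ i)
    (μ * ℓ * r * δ') (θ / 2) (by positivity) (by positivity) ?_ ?_
  · refine key.trans (le_of_eq ?_)
    congr 2
    field_simp
    ring
  · rintro y ⟨h1, -, -⟩
    have hsum : ∀ i, ∑ ρ, w y ρ i ≤ μ * δ' := by
      intro i
      calc ∑ ρ, w y ρ i ≤ ∑ ρ, (if i ∈ S (spl H a y) ρ then δ' else 0) := by
            refine Finset.sum_le_sum fun ρ _ => ?_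
            simp only [hw]
            by_cases h2 : i ∈ S (spl H a y) ρ
            · rw [if_pos h2]
              split_ifs with h3
              · exact h3.2.le
              · exact hδ'.le
            · rw [if_neg (fun h => h2 h.1), if_neg h2]
        _ = (Finset.univ.filter fun ρ => i ∈ S (spl H a y) ρ).card * δ' := by
            rw [← Finset.sum_filter, Finset.sum_const, nsmul_eq_mul]
        _ ≤ μ * δ' := by
            have := hμ _ h1 i
            have h4 : ((Finset.univ.filter fun ρ => i ∈ S (spl H a y) ρ).card : ℝ) ≤ μ := by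
              exact_mod_cast this
            exact mul_le_mul_of_nonneg_right h4 hδ'.le
    calc ∑ i, (if i ∈ H then 0 else ∑ ρ, w y ρ i) ^ 2
        ≤ ∑ i, μ * δ' * ∑ ρ, w y ρ i := by
          refine Finset.sum_le_sum fun i _ => ?_
          have h0 : 0 ≤ ∑ ρ, w y ρ i := Finset.sum_nonneg fun ρ _ => hw0 y ρ i
          split_ifs
          · simp only [ne_eq, OfNat.ofNat_ne_zero, not_false_eq_true, zero_pow]
            positivity
          · rw [sq]
            exact mul_le_mul_of_nonneg_right (hsum i) h0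
      _ = μ * δ' * ∑ ρ, ∑ i, w y ρ i := by
          rw [← Finset.mul_sum, Finset.sum_comm]
      _ ≤ μ * δ' * ∑ ρ, ℓ * Q (spl H a y) ρ := by
          refine mul_le_mul_of_nonneg_left (Finset.sum_le_sum fun ρ _ => ?_) (by positivity)
          calc ∑ i, w y ρ i ≤ ∑ i, (if i ∈ S (spl H a y) ρ then Q (spl H a y) ρ else 0) := by
                refine Finset.sum_le_sum fun i _ => ?_
                simp only [hw]
                by_cases h2 : i ∈ S (spl H a y) ρ
                · rw [if_pos h2]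
                  split_ifs
                  · exact le_rfl
                  · exact hQ _ _
                · rw [if_neg (fun h => h2 h.1), if_neg h2]
            _ = (S (spl H a y) ρ).card * Q (spl H a y) ρ := by
                rw [Finset.sum_ite_mem, Finset.univ_inter, Finset.sum_const, nsmul_eq_mul]
            _ ≤ ℓ * Q (spl H a y) ρ := by
                have h4 : ((S (spl H a y) ρ).card : ℝ) ≤ ℓ := by exact_mod_cast hS _ h1 ρ
                exact mul_le_mul_of_nonneg_right h4 (hQ _ _)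
      _ = μ * δ' * ℓ * ∑ ρ, Q (spl H a y) ρ := by
          rw [← Finset.mul_sum]
          ring
      _ ≤ μ * δ' * ℓ * r := mul_le_mul_of_nonneg_left (hr _ h1) (by positivity)
      _ = μ * ℓ * r * δ' := by ring
  · rintro y z ⟨h1, h2, h3⟩ h4
    have hB : ∀ i ∈ B (spl H a y), spl H a y i = spl H a z i := by
      intro i hi
      have hiH : i ∈ H := by
        rw [h2]
        exact Finset.mem_union_left _ hi
      unfold spl
      simp [hiH]
    have h5 := hfar _ _ h1 h4 hB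
    have h6 : ∑ ρ, Q (spl H a y) ρ * ind (∃ i ∈ S (spl H a y) ρ, spl H a y i ≠ spl H a z i) ≤
        ∑ ρ, (∑ i, (if i ∈ H then 0 else w y ρ i) * ind (y i ≠ z i)
          + Q (spl H a y) ρ * ind (δ' ≤ Q (spl H a y) ρ ∧ Q (spl H a y) ρ < δ)) := by
      refine Finset.sum_le_sum fun ρ _ => ?_
      have h0 := hQ (spl H a y) ρ
      have hn := mul_nonneg h0 (ind_nonneg (δ' ≤ Q (spl H a y) ρ ∧ Q (spl H a y) ρ < δ))
      have hn2 : 0 ≤ ∑ i, (if i ∈ H then 0 else w y ρ i) * ind (y i ≠ z i) := by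
        refine Finset.sum_nonneg fun i _ => mul_nonneg ?_ (ind_nonneg _)
        split_ifs
        · exact le_rfl
        · exact hw0 y ρ i
      by_cases hd : ∃ i ∈ S (spl H a y) ρ, spl H a y i ≠ spl H a z i
      · obtain ⟨i, hi, hne⟩ := hd
        have hiH : i ∉ H := by
          intro hiH
          apply hne
          unfold spl
          simp [hiH]
        have hyz : y i ≠ z i := by
          unfold spl at hne
          simpa [hiH] using hne
        have e1 : ind (∃ i ∈ S (spl H a y) ρ, spl H a y i ≠ spl H a z i) = 1 := by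
          unfold ind
          rw [if_pos ⟨i, hi, hne⟩]
        rw [e1, mul_one]
        by_cases hb : Q (spl H a y) ρ < δ'
        · have h7 : Q (spl H a y) ρ ≤ ∑ i, (if i ∈ H then 0 else w y ρ i) * ind (y i ≠ z i) := by
            have h8 := Finset.single_le_sum
              (f := fun i => (if i ∈ H then 0 else w y ρ i) * ind (y i ≠ z i)) (fun i _ => by
                refine mul_nonneg ?_ (ind_nonneg _)
                split_ifs
                · exact le_rfl
                · exact hw0 y ρ i) (Finset.mem_univ i)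
            refine le_trans (le_of_eq ?_) h8
            have e2 : ind (y i ≠ z i) = 1 := by
              unfold ind
              rw [if_pos hyz]
            simp only [if_neg hiH, e2, mul_one, hw, if_pos (And.intro hi hb)]
          linarith
        · have h7 : Q (spl H a y) ρ < δ := by
            by_contra hcon
            apply hiH
            rw [h2]
            refine Finset.mem_union_right _ (Finset.mem_biUnion.2 ⟨ρ, ?_, hi⟩)
            exact Finset.mem_filter.2 ⟨Finset.mem_univ _, not_lt.1 hcon⟩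
          have e3 : ind (δ' ≤ Q (spl H a y) ρ ∧ Q (spl H a y) ρ < δ) = 1 := by
            unfold ind
            rw [if_pos ⟨not_lt.1 hb, h7⟩]
          rw [e3]
          linarith
      · have e1 : ind (∃ i ∈ S (spl H a y) ρ, spl H a y i ≠ spl H a z i) = 0 := by
          unfold ind
          rw [if_neg hd]
        rw [e1, mul_zero]
        linarith
    rw [Finset.sum_add_distrib, Finset.sum_comm] at h6
    have h8 : mid (Q (spl H a y)) δ' δ ≤ θ / 2 := h3
    unfold mid at h8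
    have h9 : ∑ i, ∑ ρ, (if i ∈ H then 0 else w y ρ i) * ind (y i ≠ z i) =
        ∑ i, (if i ∈ H then 0 else ∑ ρ, w y ρ i) * ind (y i ≠ z i) := by
      refine Finset.sum_congr rfl fun i _ => ?_
      rw [← Finset.sum_mul]
      congr 1
      split_ifs
      · simp
      · rfl
    rw [h9] at h6
    linarith

open Classical in
/-- Completeness. -/
lemma complete (Yes No : (Fin n → ℤˣ) → Prop) (B : (Fin n → ℤˣ) → Finset (Fin n))
    (S : (Fin n → ℤˣ) → P → Finset (Fin n)) (Q : (Fin n → ℤˣ) → P → ℝ)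
    (hQ : ∀ x ρ, 0 ≤ Q x ρ) (r θ : ℝ) (t ℓ μ : ℕ) (hr0 : 0 < r) (hℓ : 1 ≤ ℓ) (hμ1 : 1 ≤ μ)
    (hr : ∀ x, Yes x → ∑ ρ, Q x ρ ≤ r) (hB : ∀ x, Yes x → (B x).card ≤ t)
    (hS : ∀ x, Yes x → ∀ ρ, (S x ρ).card ≤ ℓ)
    (hμ : ∀ x, Yes x → ∀ i, (Finset.univ.filter fun ρ => i ∈ S x ρ).card ≤ μ)
    (hθ : 0 < θ) (hfar : ∀ x y, Yes x → No y → (∀ i ∈ B x, x i = y i) →
      θ ≤ ∑ ρ, Q x ρ * ind (∃ i ∈ S x ρ, x i ≠ y i))
    (J : ℕ) (hJ : 1 ≤ J) (hJ2 : 2 * r ≤ J * θ) (δ : ℕ → ℝ) (hδ : ∀ j, δ (j + 1) ≤ δ j)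
    (hδ0 : ∀ j, 0 < δ j) (k : ℕ → ℕ) (hk : ∀ j, t + ℓ * (r / δ j) < k j + 1)
    (p : ℕ → ℝ) (hp : ∀ j, 0 < p j) :
    Pb (fun x => Yes x ∧ ∀ H, ¬ Cert No J k p H x)
      ≤ ∑ j ∈ Finset.range J, ((n : ℝ) + 1) ^ k j *
        (Real.exp (-(θ ^ 2 / (16 * (μ * ℓ * r * δ (j + 1))))) / p j) := by
  set St : ℕ → Finset (Fin n) → (Fin n → ℤˣ) → Prop := fun j H x =>
    Yes x ∧ H = hv (B x) (S x) (Q x) (δ j) ∧ mid (Q x) (δ (j + 1)) (δ j) ≤ θ / 2 with hSt
  have h1 : ∀ j (H : Finset (Fin n)),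
      Pb (fun x => St j H x ∧ p j ≤ Pb (fun y => No (spl H x y))) ≤
        Real.exp (-(θ ^ 2 / (16 * (μ * ℓ * r * δ (j + 1))))) / p j := by
    intro j H
    have hE := Real.exp_pos (-(θ ^ 2 / (16 * (μ * ℓ * r * δ (j + 1)))))
    unfold Pb
    rw [← spl_avg H]
    refine Ex_le_const fun a => ?_
    simp only [spl_spl]
    by_cases hc : p j ≤ Ex (fun y => ind (No (spl H a y)))
    · rw [le_div_iff₀ (hp j)]
      have h2 := step Yes No B S Q hQ r θ ℓ μ hr0 hℓ hμ1 hr hS hμ hθ hfar (δ (j + 1)) (δ j)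
        (hδ0 _) H a
      refine le_trans ?_ h2
      rw [mul_comm]
      unfold Pb
      refine mul_le_mul hc (Ex_mono fun y => ind_mono fun h => h.1) (Ex_nonneg fun _ => ind_nonneg _)
        (Ex_nonneg fun _ => ind_nonneg _)
    · have : ∀ y, ind (St j H (spl H a y) ∧ p j ≤ Ex (fun y => ind (No (spl H a y)))) = 0 := by
        intro y
        unfold ind
        rw [if_neg (fun h => hc h.2)]
      rw [Ex_congr this, Ex_const]
      exact div_nonneg hE.le (hp j).le
  have h2 : Pb (fun x => Yes x ∧ ∀ H, ¬ Cert No J k p H x) ≤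
      ∑ j ∈ Finset.range J, ∑ H ∈ (Finset.univ : Finset (Finset (Fin n))).filter
        (fun H => H.card ≤ k j), Pb (fun x => St j H x ∧ p j ≤ Pb (fun y => No (spl H x y))) := by
    unfold Pb
    simp_rw [← Ex_sum]
    refine Ex_mono fun x => ?_
    by_cases h : Yes x ∧ ∀ H, ¬ Cert No J k p H x
    · obtain ⟨hx, hH⟩ := h
      obtain ⟨j, hj, hm⟩ := scale (Q x) (hQ x) r θ (hr x hx) J hJ hJ2 δ hδ
      have hcard : (hv (B x) (S x) (Q x) (δ j)).card ≤ k j := by
        have h3 := card_hv (B x) (S x) (Q x) (hQ x) t ℓ (hB x hx) (hS x hx) r (δ j) (hr x hx)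
          (hδ0 j)
        have h4 := h3.trans_lt (hk j)
        have h5 : (hv (B x) (S x) (Q x) (δ j)).card < k j + 1 := by exact_mod_cast h4
        omega
      have hge : p j ≤ Ex (fun y => ind (No (spl (hv (B x) (S x) (Q x) (δ j)) x y))) := by
        by_contra hcon
        exact hH (hv (B x) (S x) (Q x) (δ j)) ⟨j, hj, hcard, not_le.1 hcon⟩
      have e1 : ind (Yes x ∧ ∀ H, ¬ Cert No J k p H x) = 1 := by
        unfold ind
        rw [if_pos ⟨hx, hH⟩]
      rw [e1]
      have e2 : ind (St j (hv (B x) (S x) (Q x) (δ j)) x ∧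
          p j ≤ Ex (fun y => ind (No (spl (hv (B x) (S x) (Q x) (δ j)) x y)))) = 1 := by
        unfold ind
        rw [if_pos ⟨⟨hx, rfl, hm⟩, hge⟩]
      calc (1 : ℝ) = ind (St j (hv (B x) (S x) (Q x) (δ j)) x ∧
          p j ≤ Ex (fun y => ind (No (spl (hv (B x) (S x) (Q x) (δ j)) x y)))) := e2.symm
        _ ≤ ∑ H ∈ (Finset.univ : Finset (Finset (Fin n))).filter (fun H => H.card ≤ k j),
            ind (St j H x ∧ p j ≤ Ex (fun y => ind (No (spl H x y)))) :=
          Finset.single_le_sum (f := fun H => ind (St j H x ∧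
            p j ≤ Ex (fun y => ind (No (spl H x y)))))
            (fun _ _ => ind_nonneg _) (Finset.mem_filter.2 ⟨Finset.mem_univ _, hcard⟩)
        _ ≤ _ := Finset.single_le_sum (f := fun j => ∑ H ∈ (Finset.univ :
            Finset (Finset (Fin n))).filter (fun H => H.card ≤ k j),
            ind (St j H x ∧ p j ≤ Ex (fun y => ind (No (spl H x y)))))
            (fun _ _ => Finset.sum_nonneg fun _ _ => ind_nonneg _) (Finset.mem_range.2 hj)
    · have e1 : ind (Yes x ∧ ∀ H, ¬ Cert No J k p H x) = 0 := by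
        unfold ind
        rw [if_neg h]
      rw [e1]
      exact Finset.sum_nonneg fun _ _ => Finset.sum_nonneg fun _ _ => ind_nonneg _
  refine h2.trans (Finset.sum_le_sum fun j _ => ?_)
  have h3 : 0 ≤ Real.exp (-(θ ^ 2 / (16 * (μ * ℓ * r * δ (j + 1))))) / p j :=
    div_nonneg (Real.exp_pos _).le (hp j).le
  calc ∑ H ∈ (Finset.univ : Finset (Finset (Fin n))).filter (fun H => H.card ≤ k j),
        Pb (fun x => St j H x ∧ p j ≤ Pb (fun y => No (spl H x y)))
      ≤ ∑ _H ∈ (Finset.univ : Finset (Finset (Fin n))).filter (fun H => H.card ≤ k j),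
        Real.exp (-(θ ^ 2 / (16 * (μ * ℓ * r * δ (j + 1))))) / p j :=
        Finset.sum_le_sum fun H _ => h1 j H
    _ = (((Finset.univ : Finset (Finset (Fin n))).filter fun H => H.card ≤ k j).card : ℝ) *
        (Real.exp (-(θ ^ 2 / (16 * (μ * ℓ * r * δ (j + 1))))) / p j) := by
        rw [Finset.sum_const, nsmul_eq_mul]
    _ ≤ _ := mul_le_mul_of_nonneg_right (card_small _) h3

open Classical in
/-- Small certificates, with all parameters chosen. -/
theorem core (Yes No : (Fin n → ℤˣ) → Prop) (B : (Fin n → ℤˣ) → Finset (Fin n))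
    (S : (Fin n → ℤˣ) → P → Finset (Fin n)) (Q : (Fin n → ℤˣ) → P → ℝ)
    (hQ : ∀ x ρ, 0 ≤ Q x ρ) (r θ : ℝ) (t ℓ μ : ℕ) (hr0 : 0 < r) (hℓ : 1 ≤ ℓ) (hμ1 : 1 ≤ μ)
    (hr : ∀ x, Yes x → ∑ ρ, Q x ρ ≤ r) (hB : ∀ x, Yes x → (B x).card ≤ t)
    (hS : ∀ x, Yes x → ∀ ρ, (S x ρ).card ≤ ℓ)
    (hμ : ∀ x, Yes x → ∀ i, (Finset.univ.filter fun ρ => i ∈ S x ρ).card ≤ μ)
    (hθ : 0 < θ) (hfar : ∀ x y, Yes x → No y → (∀ i ∈ B x, x i = y i) →
      θ ≤ ∑ ρ, Q x ρ * ind (∃ i ∈ S x ρ, x i ≠ y i))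
    (J : ℕ) (hJ : 1 ≤ J) (hJ2 : 2 * r ≤ J * θ) (η G : ℝ) (hη : 0 < η) (hη1 : η ≤ 1) (hG : 1 ≤ G)
    (hG2 : 16 * (μ * ℓ * r) * (2 * (t + ℓ * r) * Real.log (n + 1) + 2 * Real.log (2 * J / η))
      ≤ θ ^ 2 * G) :
    ∃ Ce : Finset (Fin n) → (Fin n → ℤˣ) → Prop,
      (∀ H a b, (∀ i ∈ H, a i = b i) → Ce H a → Ce H b) ∧
      (∀ H a, Ce H a → (H.card : ℝ) ≤ t + ℓ * r * G ^ J) ∧
      Pb (fun x => (Yes x ∧ ∀ H, ¬ Ce H x) ∨ (No x ∧ ∃ H, Ce H x)) ≤ η := by
  set δ : ℕ → ℝ := fun j => (G ^ j)⁻¹ with hδ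
  set k : ℕ → ℕ := fun j => t + ⌊ℓ * r * G ^ j⌋₊ with hk
  have hℓ0 : (0 : ℝ) < ℓ := by exact_mod_cast hℓ
  have hμ0 : (0 : ℝ) < μ := by exact_mod_cast hμ1
  have hG0 : 0 < G := by linarith
  have hn0 : (0 : ℝ) < (n : ℝ) + 1 := by positivity
  have hJ0 : (0 : ℝ) < J := by exact_mod_cast hJ
  have ht0 : (0 : ℝ) ≤ t := Nat.cast_nonneg t
  set p : ℕ → ℝ := fun j => η / (2 * J * ((n : ℝ) + 1) ^ k j) with hp
  have hp0 : ∀ j, 0 < p j := fun j => by simp only [hp]; positivity
  have hkc : ∀ j, (k j : ℝ) ≤ t + ℓ * r * G ^ j := by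
    intro j
    have h2 : ((⌊ℓ * r * G ^ j⌋₊ : ℕ) : ℝ) ≤ ℓ * r * G ^ j := Nat.floor_le (by positivity)
    simp only [hk]
    push_cast
    linarith
  refine ⟨Cert No J k p, fun H a b h hc => Cert_congr h hc, ?_, ?_⟩
  · rintro H a ⟨j, hj, hH, -⟩
    have h1 : (H.card : ℝ) ≤ k j := by exact_mod_cast hH
    have h2 := hkc j
    have h3 : G ^ j ≤ G ^ J := pow_le_pow_right₀ hG hj.le
    have h4 := mul_le_mul_of_nonneg_left h3 (mul_nonneg hℓ0.le hr0.le)
    linarith
  · have h1 := sound No J k p (fun j => (hp0 j).le)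
    have h2 := complete Yes No B S Q hQ r θ t ℓ μ hr0 hℓ hμ1 hr hB hS hμ hθ hfar J hJ hJ2 δ
      (fun j => by
        simp only [hδ]
        exact inv_anti₀ (by positivity) (pow_le_pow_right₀ hG (Nat.le_succ j)))
      (fun j => by simp only [hδ]; positivity) k
      (fun j => by
        simp only [hδ, hk, div_inv_eq_mul]
        push_cast
        have := Nat.lt_floor_add_one (ℓ * r * G ^ j)
        linarith) p hp0
    have h3 : ∑ j ∈ Finset.range J, ((n : ℝ) + 1) ^ k j * p j = η / 2 := by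
      have e : ∀ j ∈ Finset.range J, ((n : ℝ) + 1) ^ k j * p j = η / (2 * J) := by
        intro j _
        simp only [hp]
        field_simp
      rw [Finset.sum_congr rfl e, Finset.sum_const, Finset.card_range, nsmul_eq_mul]
      field_simp
    have h4 : ∑ j ∈ Finset.range J, ((n : ℝ) + 1) ^ k j *
        (Real.exp (-(θ ^ 2 / (16 * (μ * ℓ * r * δ (j + 1))))) / p j) ≤ η / 2 := by
      have e : ∀ j ∈ Finset.range J, ((n : ℝ) + 1) ^ k j *
          (Real.exp (-(θ ^ 2 / (16 * (μ * ℓ * r * δ (j + 1))))) / p j) ≤ η / (2 * J) := by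
        intro j _
        have hGj : 1 ≤ G ^ j := one_le_pow₀ hG
        have hkj : (k j : ℝ) ≤ (t + ℓ * r) * G ^ j := by
          have h2 := hkc j
          have h3 : (t : ℝ) * 1 ≤ t * G ^ j := mul_le_mul_of_nonneg_left hGj ht0
          linarith
        have hlog : 0 ≤ Real.log ((n : ℝ) + 1) := Real.log_nonneg (by
          have : (0 : ℝ) ≤ n := Nat.cast_nonneg n
          linarith)
        have hlog2 : 0 ≤ Real.log (2 * J / η) := by
          apply Real.log_nonneg
          rw [le_div_iff₀ hη]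
          have : (1 : ℝ) ≤ J := by exact_mod_cast hJ
          linarith
        have e1 : θ ^ 2 / (16 * (μ * ℓ * r * δ (j + 1))) =
            θ ^ 2 * G ^ (j + 1) / (16 * (μ * ℓ * r)) := by
          simp only [hδ]
          field_simp
        have h5 : 2 * k j * Real.log (n + 1) + 2 * Real.log (2 * J / η) ≤
            θ ^ 2 / (16 * (μ * ℓ * r * δ (j + 1))) := by
          rw [e1, le_div_iff₀ (by positivity)]
          calc (2 * k j * Real.log (n + 1) + 2 * Real.log (2 * J / η)) * (16 * (μ * ℓ * r))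
              ≤ (2 * ((t + ℓ * r) * G ^ j) * Real.log (n + 1) + 2 * Real.log (2 * J / η) * G ^ j)
                * (16 * (μ * ℓ * r)) := by
                refine mul_le_mul_of_nonneg_right ?_ (by positivity)
                have h6 : 2 * (k j : ℝ) * Real.log (n + 1)
                    ≤ 2 * ((t + ℓ * r) * G ^ j) * Real.log (n + 1) := by
                  gcongr
                have h7 : 2 * Real.log (2 * J / η) * 1 ≤ 2 * Real.log (2 * J / η) * G ^ j := by
                  gcongr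
                linarith
            _ = 16 * (μ * ℓ * r) *
                (2 * (t + ℓ * r) * Real.log (n + 1) + 2 * Real.log (2 * J / η)) * G ^ j := by
                ring
            _ ≤ θ ^ 2 * G * G ^ j := mul_le_mul_of_nonneg_right hG2 (by positivity)
            _ = θ ^ 2 * G ^ (j + 1) := by ring
        have h6 : Real.exp (-(θ ^ 2 / (16 * (μ * ℓ * r * δ (j + 1))))) ≤
            ((((n : ℝ) + 1) ^ k j) ^ 2)⁻¹ * ((2 * J / η) ^ 2)⁻¹ := by
          calc Real.exp (-(θ ^ 2 / (16 * (μ * ℓ * r * δ (j + 1)))))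
              ≤ Real.exp (-(2 * k j * Real.log (n + 1) + 2 * Real.log (2 * J / η))) :=
                Real.exp_le_exp.2 (by linarith)
            _ = _ := by
              have hq : (0 : ℝ) < 2 * J / η := by positivity
              have e2 : -(2 * (k j : ℝ) * Real.log (n + 1) + 2 * Real.log (2 * J / η)) =
                  -(Real.log ((((n : ℝ) + 1) ^ k j) ^ 2)) + -(Real.log ((2 * J / η) ^ 2)) := by
                rw [Real.log_pow, Real.log_pow, Real.log_pow]
                push_cast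
                ring
              rw [e2, Real.exp_add, Real.exp_neg, Real.exp_neg, Real.exp_log (by positivity),
                Real.exp_log (by positivity)]
        calc ((n : ℝ) + 1) ^ k j * (Real.exp (-(θ ^ 2 / (16 * (μ * ℓ * r * δ (j + 1))))) / p j)
            ≤ ((n : ℝ) + 1) ^ k j * (((((n : ℝ) + 1) ^ k j) ^ 2)⁻¹ * ((2 * J / η) ^ 2)⁻¹ / p j) := by
              have := hp0 j
              gcongr
          _ = η / (2 * J) := by
              simp only [hp]
              field_simp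
      calc _ ≤ ∑ _j ∈ Finset.range J, η / (2 * J) := Finset.sum_le_sum e
        _ = η / 2 := by
          rw [Finset.sum_const, Finset.card_range, nsmul_eq_mul]
          field_simp
    refine (Pb_or _ _).trans ?_
    linarith

end Pool.Agent.W938.QB
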