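import Pool.Agent.W938.QX.Defs

/-!
# Circuits whose questions are answered by polynomially many bits

A question to the oracle is a string `z`, in superposition, together with a list of suffixes
`u₁, ..., u_ℓ`, which is fixed by the circuit; the answer consists of the `ℓ` bits which tell
whether the strings `z u₁, ..., z u_ℓ` belong to the oracle. So the oracle is used as a function
with long values.
-/

set_option autoImplicit false

namespace Pool.Agent.W938.QB

open Pool.Agent.NPC Pool.Agent.H620R2.Gauge Pool.Agent.W938.Hyb Pool.Agent.W938.QX

/-- An operation: `inl i` is a Hadamard gate on the qubit `i`; `inr (inl (q, k))` flips the qubit `k`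
if all qubits in `q` are `1`; `inr (inr (q, t))` asks the string `z` in the qubits `q`: for every
pair `(u, k)` in `t` the qubit `k` is flipped if the string `z u` is in the oracle. (If a target
qubit is among the qubits `q`, it is read as `0`.) -/
abbrev Op : Type := ℕ ⊕ ((List ℕ × ℕ) ⊕ (List ℕ × List (List Bool × ℕ)))

/-- The basis state `s` with all target qubits replaced by `0`. -/
def clr {m : ℕ} (t : List (List Bool × ℕ)) (s : Fin m → Bool) : Fin m → Bool :=
  fun i => if (i : ℕ) ∈ t.map Prod.snd then false else s i

/-- The string which is asked in the basis state `s`. -/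
def qs {m : ℕ} (q : List ℕ) (t : List (List Bool × ℕ)) (s : Fin m → Bool) : List Bool :=
  q.map (rd (clr t s))

/-- Is the qubit `i` flipped, when the string `z` is asked? -/
def par (O : Oracle) (z : List Bool) (t : List (List Bool × ℕ)) (i : ℕ) : Bool :=
  t.foldr (fun e b => (decide (e.2 = i) && O (z ++ e.1)) ^^ b) false

/-- The effect of a question on the basis states. -/
def ask {m : ℕ} (O : Oracle) (q : List ℕ) (t : List (List Bool × ℕ)) (s : Fin m → Bool) :
    Fin m → Bool := fun i => s i ^^ par O (qs q t s) t i

/-- The action of an operation on a vector of amplitudes. -/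
noncomputable def opAct (O : Oracle) {m : ℕ} : Op → ((Fin m → Bool) → ℝ) → (Fin m → Bool) → ℝ
  | Sum.inl i, ψ => gateAct O (Sum.inl i) ψ
  | Sum.inr (Sum.inl (q, k)), ψ => gateAct O (Sum.inr (false, q, k)) ψ
  | Sum.inr (Sum.inr (q, t)), ψ => fun s => ψ (ask O q t s)

/-- The action of a list of operations. -/
noncomputable def run (O : Oracle) {m : ℕ} :
    List Op → ((Fin m → Bool) → ℝ) → (Fin m → Bool) → ℝ
  | [], ψ => ψ
  | g :: l, ψ => run O l (opAct O g ψ)

/-- The question concerns some string of even length. -/
def evenQ (q : List ℕ) (t : List (List Bool × ℕ)) : Bool :=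
  t.any fun e => decide ((q.length + e.1.length) % 2 = 0)

/-- The number of the questions which concern strings of even length. -/
def numB : List Op → ℕ
  | [] => 0
  | Sum.inr (Sum.inr (q, t)) :: l => numB l + (if evenQ q t then 1 else 0)
  | _ :: l => numB l

/-- The probability that the circuit accepts, relative to the oracle `O`, the witness state `ψ` (a
state of `b` qubits, with complex amplitudes). After the `b` qubits of the witness there are `m`
ancillas, which are `0` in the beginning. The circuit accepts if the measurement of the first
ancilla (the qubit number `b`) of the final state gives `1`. The operations are real matrices, hence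
they act on the real part and on the imaginary part of the state separately. -/
noncomputable def acc (O : Oracle) (l : List Op) {b : ℕ} (m : ℕ) (ψ : (Fin b → Bool) → ℂ) : ℝ :=
  ∑ s : Fin (b + m) → Bool, if rd s b then
    run O l (load m fun t => (ψ t).re) s ^ 2 + run O l (load m fun t => (ψ t).im) s ^ 2
  else 0

/-- The promise problem `(Y, N)` (the strings in `Y` are to be accepted and the strings in `N` are to
be rejected) has quantum proofs relative to `O`, with completeness `c` and soundness `s`, with
witness states from the family `W` (`W b` is the set of the witness states of `b` qubits that a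
prover may send; for `QMA` these are all states, for `QCMA` the basis states, for `QMA(k)` the
products of `k` states), and with a verifier which asks at most `r` questions concerning strings
of even length in superposition. The verifier computes in polynomial time relative to `O`, from
the input `x` and a classical witness `w`, the string `F ⟨w, x⟩` and then, in polynomial time, a
quantum circuit with at most `r` such questions (and any number of other operations). The circuit
is applied to the quantum witness `ψ`, a state of `p(|x|)` qubits, and to `p(|x|)` ancillas. -/
def IsQMA (W : ∀ b : ℕ, Set ((Fin b → Bool) → ℂ)) (r : ℕ) (c s : ℝ) (O : Oracle)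
    (Y N : Set (List Bool)) : Prop :=
  ∃ (F : List Bool → List Bool) (C : List Bool → List Op) (p : Polynomial ℕ),
    IsFP O F ∧ PolyTime (fun z => bits (C z)) ∧ (∀ z, numB (C z) ≤ r) ∧
    ∀ x : List Bool,
      (x ∈ Y → ∃ (w : List Bool) (ψ : (Fin (p.eval x.length) → Bool) → ℂ),
        w.length ≤ p.eval x.length ∧ ψ ∈ W (p.eval x.length) ∧ ∑ t, ‖ψ t‖ ^ 2 = 1 ∧
        c ≤ acc O (C (F (pairBits w x))) (p.eval x.length) ψ) ∧
      (x ∈ N → ∀ (w : List Bool) (ψ : (Fin (p.eval x.length) → Bool) → ℂ),
        w.length ≤ p.eval x.length → ψ ∈ W (p.eval x.length) → ∑ t, ‖ψ t‖ ^ 2 = 1 →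
        acc O (C (F (pairBits w x))) (p.eval x.length) ψ ≤ s)

end Pool.Agent.W938.QB
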