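import Pool.Agent.W938.QB.Core
import Pool.Agent.W938.QX.Orc

/-!
# Certificates relative to a random oracle, with weights for blocks of strings
-/

set_option autoImplicit false
set_option linter.unusedSectionVars false

namespace Pool.Agent.W938.QB

open Finset Pool.Agent.H620R2.Gauge Pool.Agent.W938.Hyb Pool.Agent.W938.CQ Pool.Agent.W938.QM
open Pool.Agent.H722R2.AA Pool.Agent.H746R2.AA Pool.Agent.H703R2.AA Pool.Agent.H703R2.AA.Pr
open Pool.Agent.H628R3.RO (randomOracle)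
open Pool.Agent.H572R2 (EE EE_congr)

open Classical in
/-- Certificates relative to a random oracle, for yes and no events which are far from each
other. -/
theorem orc {P : Type} [Fintype P] (T : Finset (List Bool)) (q : ℕ)
    (hTq : T.card + 1 ≤ 2 ^ (q + 1)) (Yes No : Oracle → Prop)
    (B : Oracle → Finset (List Bool)) (S : Oracle → P → Finset (List Bool))
    (Q : Oracle → P → ℝ)
    (hYes : ∀ A A' : Oracle, (∀ z ∈ T, A z = A' z) → Yes A → Yes A')
    (hNo : ∀ A A' : Oracle, (∀ z ∈ T, A z = A' z) → No A → No A')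
    (hQ : ∀ A ρ, 0 ≤ Q A ρ) (r θ : ℝ) (t ℓ μ : ℕ) (hr0 : 0 < r) (hℓ : 1 ≤ ℓ) (hμ1 : 1 ≤ μ)
    (hr : ∀ A, Yes A → ∑ ρ, Q A ρ ≤ r) (hB : ∀ A, Yes A → (B A).card ≤ t)
    (hBT : ∀ A, Yes A → B A ⊆ T)
    (hS : ∀ A, Yes A → ∀ ρ, (S A ρ).card ≤ ℓ) (hST : ∀ A, Yes A → ∀ ρ, S A ρ ⊆ T)
    (hμ : ∀ A, Yes A → ∀ z, (Finset.univ.filter fun ρ => z ∈ S A ρ).card ≤ μ)
    (hθ : 0 < θ) (hfar : ∀ A A' : Oracle, Yes A → No A' → (∀ z ∈ B A, A z = A' z) →
      θ ≤ ∑ ρ, Q A ρ * ind (∃ z ∈ S A ρ, A z ≠ A' z))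
    (J : ℕ) (hJ : 1 ≤ J) (hJ2 : 2 * r ≤ J * θ) (η G : ℝ) (hη : 0 < η) (hη1 : η ≤ 1) (hG : 1 ≤ G)
    (hG2 : 16 * (μ * ℓ * r) * (2 * (t + ℓ * r) * (q + 2) + 2 * Real.log (2 * J / η))
      ≤ θ ^ 2 * G) :
    ∃ Ce : Finset (List Bool) → Oracle → Prop,
      (∀ (H : Finset (List Bool)) (A A' : Oracle), (∀ z ∈ H, A z = A' z) → Ce H A → Ce H A') ∧
      (∀ H A, Ce H A → H ⊆ T ∧ (H.card : ℝ) ≤ t + ℓ * r * G ^ J) ∧
      MeasurableSet {A : Oracle | (Yes A ∧ ∀ H, ¬ Ce H A) ∨ (No A ∧ ∃ H, Ce H A)} ∧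
      randomOracle.real {A : Oracle | (Yes A ∧ ∀ H, ¬ Ce H A) ∨ (No A ∧ ∃ H, Ce H A)} ≤ η := by
  have hcard : T.card + 1 ≤ 2 ^ (q + 1) := hTq
  set N := T.card with hN
  set e : Fin N → List Bool := fun i => (T.equivFin.symm i).1 with he
  have hinj : Function.Injective e := by
    intro i j hij
    exact T.equivFin.symm.injective (Subtype.ext hij)
  have heS : ∀ i, e i ∈ T := fun i => (T.equivFin.symm i).2
  have hsurj : ∀ z ∈ T, ∃ i, e i = z := by
    intro z hz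
    exact ⟨T.equivFin ⟨z, hz⟩, by simp [he]⟩
  set O : (Fin N → Bool) → Oracle := fun y z =>
    if h : z ∈ T then y (T.equivFin ⟨z, h⟩) else false with hO
  have hOe : ∀ y i, O y (e i) = y i := by
    intro y i
    have h1 : T.equivFin ⟨e i, heS i⟩ = i := by
      simp only [he, Subtype.coe_eta, Equiv.apply_symm_apply]
    simp only [hO, dif_pos (heS i), h1]
  have hOA : ∀ A : Oracle, ∀ z ∈ T, O (fun i => A (e i)) z = A z := by
    intro A z hz
    simp only [hO, dif_pos hz, he, Equiv.symm_apply_apply]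
  have hpre : ∀ X : Finset (List Bool), (Finset.univ.filter fun i => e i ∈ X).card ≤ X.card := by
    intro X
    rw [← Finset.card_image_of_injective _ hinj]
    refine Finset.card_le_card fun z hz => ?_
    obtain ⟨i, hi, rfl⟩ := Finset.mem_image.1 hz
    exact (Finset.mem_filter.1 hi).2
  obtain ⟨Ce, hCe1, hCe2, hCe3⟩ := core (n := N) (P := P) (fun y => Yes (O (bx y)))
    (fun y => No (O (bx y))) (fun y => Finset.univ.filter fun i => e i ∈ B (O (bx y)))
    (fun y ρ => Finset.univ.filter fun i => e i ∈ S (O (bx y)) ρ)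
    (fun y ρ => Q (O (bx y)) ρ) (fun y ρ => hQ _ _) r θ t ℓ μ hr0 hℓ hμ1
    (fun y hy => hr _ hy)
    (fun y hy => (hpre _).trans (hB _ hy))
    (fun y hy ρ => (hpre _).trans (hS _ hy ρ))
    (fun y hy i => by
      refine le_trans (Finset.card_le_card ?_) (hμ _ hy (e i))
      intro ρ hρ
      rw [Finset.mem_filter, Finset.mem_filter] at hρ
      exact Finset.mem_filter.2 ⟨Finset.mem_univ _, hρ.2.2⟩)
    hθ
    (fun y y' hy hy' hag => by
      have h1 := hfar _ _ hy hy' (by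
        intro z hz
        obtain ⟨i, rfl⟩ := hsurj z (hBT _ hy hz)
        have h2 := hag i (Finset.mem_filter.2 ⟨Finset.mem_univ _, hz⟩)
        rw [hOe, hOe]
        unfold bx
        rw [h2])
      refine h1.trans (Finset.sum_le_sum fun ρ _ => ?_)
      refine mul_le_mul_of_nonneg_left (ind_mono ?_) (hQ _ _)
      rintro ⟨z, hz, hne⟩
      obtain ⟨i, rfl⟩ := hsurj z (hST _ hy ρ hz)
      refine ⟨i, Finset.mem_filter.2 ⟨Finset.mem_univ _, hz⟩, ?_⟩
      rw [hOe, hOe] at hne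
      intro heq
      apply hne
      unfold bx
      rw [heq])
    J hJ hJ2 η G hη hη1 hG
    (by
      refine le_trans ?_ hG2
      have hlog : Real.log ((N : ℝ) + 1) ≤ (q : ℝ) + 2 := by
        have h1 : ((N : ℝ) + 1) ≤ 2 ^ (q + 1) := by exact_mod_cast hcard
        have h2 : Real.log ((N : ℝ) + 1) ≤ Real.log (2 ^ (q + 1)) :=
          Real.log_le_log (by positivity) h1
        rw [Real.log_pow] at h2
        have h3 : Real.log 2 ≤ 1 := by
          have := Real.log_two_lt_d9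
          linarith
        have h4 : ((q + 1 : ℕ) : ℝ) * Real.log 2 ≤ ((q + 1 : ℕ) : ℝ) * 1 :=
          mul_le_mul_of_nonneg_left h3 (Nat.cast_nonneg _)
        push_cast at h2 h4
        linarith
      have ht0 : (0 : ℝ) ≤ t := Nat.cast_nonneg t
      gcongr)
  set Ce' : Finset (List Bool) → Oracle → Prop := fun H A =>
    ∃ H' : Finset (Fin N), H = H'.image e ∧ Ce H' (fun i => ub (A (e i))) with hCe'
  set R : (Fin N → Bool) → Prop := fun y =>
    (Yes (O y) ∧ ∀ H, ¬ Ce H (fun i => ub (y i))) ∨ (No (O y) ∧ ∃ H, Ce H (fun i => ub (y i)))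
    with hR
  have hW : {A : Oracle | (Yes A ∧ ∀ H, ¬ Ce' H A) ∨ (No A ∧ ∃ H, Ce' H A)} =
      {A : List Bool → Bool | R (fun i => A (e i))} := by
    ext A
    simp only [Set.mem_ofPred_eq, hR]
    have h1 : Yes A ↔ Yes (O fun i => A (e i)) :=
      ⟨hYes _ _ fun z hz => (hOA A z hz).symm, hYes _ _ fun z hz => hOA A z hz⟩
    have h2 : No A ↔ No (O fun i => A (e i)) :=
      ⟨hNo _ _ fun z hz => (hOA A z hz).symm, hNo _ _ fun z hz => hOA A z hz⟩
    have h3 : (∃ H, Ce' H A) ↔ ∃ H, Ce H (fun i => ub (A (e i))) := by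
      constructor
      · rintro ⟨H, H', -, h⟩
        exact ⟨H', h⟩
      · rintro ⟨H', h⟩
        exact ⟨H'.image e, H', rfl, h⟩
    have h4 : (∀ H, ¬ Ce' H A) ↔ ∀ H, ¬ Ce H (fun i => ub (A (e i))) := by
      rw [← not_exists, ← not_exists, h3]
    rw [h1, h2, h3, h4]
  obtain ⟨hm, hp⟩ := Pool.Agent.H54.RQ.c1 N e hinj R (fun _ => Classical.propDecidable _)
  refine ⟨Ce', ?_, ?_, ?_, ?_⟩
  · rintro H A A' h ⟨H', rfl, hc⟩
    refine ⟨H', rfl, hCe1 H' _ _ ?_ hc⟩
    intro i hi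
    rw [h (e i) (Finset.mem_image_of_mem e hi)]
  · rintro H A ⟨H', rfl, hc⟩
    refine ⟨?_, ?_⟩
    · intro z hz
      obtain ⟨i, -, rfl⟩ := Finset.mem_image.1 hz
      exact heS i
    · rw [Finset.card_image_of_injective _ hinj]
      exact hCe2 _ _ hc
  · rw [hW]
    exact hm
  · rw [hW, hp, ← EE_bx]
    refine le_trans (le_of_eq ?_) hCe3
    unfold Pb
    refine Ex_congr fun y => ?_
    have e1 : (fun i => ub (bx y i)) = y := funext fun i => ub_bx y i
    simp only [hR]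
    rw [e1]
    unfold ind
    split_ifs <;> rfl

end Pool.Agent.W938.QB
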