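import Pool.Agent.W938.QB.Hybrid
import Pool.Agent.W938.QB.Orc

/-!
# The certificates for one input and one classical witness
-/

set_option autoImplicit false
set_option linter.unusedSectionVars false

namespace Pool.Agent.W938.QB

open Finset Pool.Agent.NPC Pool.Agent.H620R2.Gauge Pool.Agent.W938.Hyb Pool.Agent.W938.CQ
open Pool.Agent.H722R2.AA Pool.Agent.H746R2.AA Pool.Agent.H703R2.AA Pool.Agent.H703R2.AA.Pr
open Pool.Agent.H628R3.RO (randomOracle)
open Pool.Agent.W938.QM (Sq mem_Sq card_Sq)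
open Pool.Agent.W938.QX (mix mix_even mix_odd Ev mem_Ev card_Ev cpt norm_cpt)

/-- The quantum circuit which is used for the string `u` (the pair of the classical witness and the
input). -/
def cir (M : Alg) (C : List Bool → List Op) (A : Oracle) (u : List Bool) : List Op :=
  match M.out A u with
  | none => []
  | some z => C z

lemma acc_cpt {b : ℕ} (m : ℕ) (O : Oracle) (l : List Op) (ψ : (Fin b → Bool) → ℂ) :
    acc O l m ψ = ∑ c : Bool, accR b O l (load m (cpt ψ c)) := by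
  rw [Fintype.sum_bool]
  unfold acc accR
  rw [← Finset.sum_add_distrib]
  refine Finset.sum_congr rfl fun s _ => ?_
  split_ifs
  · rfl
  · rw [add_zero]

/-- Some witness state of the family is accepted with probability at least `α`. -/
def YesE (W : ∀ b : ℕ, Set ((Fin b → Bool) → ℂ)) (α : ℝ) (M : Alg) (C : List Bool → List Op)
    (b m : ℕ) (u : List Bool) (O : Oracle) : Prop :=
  ∃ ψ ∈ W b, ∑ t, ‖ψ t‖ ^ 2 = 1 ∧ α ≤ acc O (cir M C O u) m ψ

/-- All witness states of the family are accepted with probability at most `β`. -/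
def NoE (W : ∀ b : ℕ, Set ((Fin b → Bool) → ℂ)) (β : ℝ) (M : Alg) (C : List Bool → List Op)
    (b m : ℕ) (u : List Bool) (O : Oracle) : Prop :=
  ∀ ψ ∈ W b, ∑ t, ‖ψ t‖ ^ 2 = 1 → acc O (cir M C O u) m ψ ≤ β

/-- The exponent. -/
def Jr (r k : ℕ) : ℕ := 32 * k ^ 2 * (r + 1) ^ 2

/-- The base. -/
def Gr {K : Type} [CommSemiring K] (r k : ℕ) (t q h ℓ g : K) : K :=
  16 * ((g * (q + 1) + 1) * ℓ * ((r : K) + 1)) * (2 * (t + ℓ * ((r : K) + 1)) * (q + 2) +
    2 * (2 * (32 * (k : K) ^ 2 * ((r : K) + 1) ^ 2) + h)) * (16 * (k : K) ^ 2 * ((r : K) + 1)) ^ 2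

/-- The bound for the number of the strings in a certificate. -/
def bd {K : Type} [CommSemiring K] (r k : ℕ) (t q h ℓ g : K) : K :=
  t + ℓ * ((r : K) + 1) * Gr r k t q h ℓ g ^ Jr r k

lemma acc_local {O O' : Oracle} {b m n : ℕ} (h : ∀ z : List Bool, z.length ≤ n → O z = O' z)
    (l : List Op) (hl : ∀ q t, Sum.inr (Sum.inr (q, t)) ∈ l → ∀ e ∈ t, q.length + e.1.length ≤ n)
    (ψ : (Fin b → Bool) → ℂ) : acc O l m ψ = acc O' l m ψ := by
  unfold acc
  rw [run_local h l hl, run_local h l hl]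

open Classical in
lemma mult (l : List Op) (G0 q : ℕ) (y : List Bool) :
    (Finset.univ.filter fun ρ : Fin G0 × {z // z ∈ Sq q} => y ∈ blk l ρ.1 ρ.2.1).card ≤
      G0 * (q + 1) + 1 := by
  refine le_trans ?_ (Nat.le_succ _)
  have h1 := Finset.card_le_card_of_injOn
    (s := Finset.univ.filter fun ρ : Fin G0 × {z // z ∈ Sq q} => y ∈ blk l ρ.1 ρ.2.1)
    (t := (Finset.univ : Finset (Fin G0 × Fin (q + 1))))
    (fun ρ => (ρ.1, ⟨ρ.2.1.length, Nat.lt_succ_of_le (mem_Sq.1 ρ.2.2)⟩))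
    (fun _ _ => Finset.mem_coe.2 (Finset.mem_univ _)) (by
      rintro ⟨g, z, hz⟩ h ⟨g', z', hz'⟩ h' heq
      simp only [Prod.mk.injEq, Fin.mk.injEq] at heq
      obtain ⟨rfl, hlen⟩ := heq
      have h2 := (Finset.mem_filter.1 (Finset.mem_coe.1 h)).2
      have h3 := (Finset.mem_filter.1 (Finset.mem_coe.1 h')).2
      obtain ⟨-, -, -, -, ⟨e, -, he⟩, -⟩ := mem_blk h2
      obtain ⟨-, -, -, -, ⟨e', -, he'⟩, -⟩ := mem_blk h3
      have h4 : z = z' := by
        have h5 : z ++ e.1 = z' ++ e'.1 := he.trans he'.symm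
        exact (List.append_inj h5 hlen).1
      subst h4
      rfl)
  rwa [Finset.card_univ, Fintype.card_prod, Fintype.card_fin, Fintype.card_fin] at h1

lemma sum_P (G0 q : ℕ) (f : ℕ → List Bool → ℝ) :
    ∑ ρ : Fin G0 × {z // z ∈ Sq q}, f ρ.1 ρ.2.1 = ∑ i ∈ Finset.range G0, ∑ z ∈ Sq q, f i z := by
  rw [Fintype.sum_prod_type, Finset.sum_range]
  refine Finset.sum_congr rfl fun i _ => ?_
  exact Finset.sum_coe_sort (Sq q) (fun z => f i z)

open Classical in
theorem dev (W : ∀ b : ℕ, Set ((Fin b → Bool) → ℂ)) (α β : ℝ) (k : ℕ) (hk : 0 < k)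
    (hαβ : 1 / (k : ℝ) ≤ α - β) (B : Oracle) (M : Alg)
    (C : List Bool → List Op) (b m : ℕ) (u : List Bool) (r t q h ℓ G0 : ℕ) (hℓ : 1 ≤ ℓ)
    (hS : ∀ A : Oracle, ∃ S : Finset (List Bool), S.card ≤ t ∧ (∀ z ∈ S, z.length ≤ q) ∧
      ∀ A' : Oracle, (∀ z ∈ S, A' z = A z) → M.out A' u = M.out A u)
    (hq : ∀ (A : Oracle) z, M.out A u = some z → ∀ q' t', Sum.inr (Sum.inr (q', t')) ∈ C z →
      q'.length ≤ q ∧ t'.length ≤ ℓ ∧ ∀ e ∈ t', q'.length + e.1.length ≤ q)
    (hG : ∀ (A : Oracle) z, M.out A u = some z → (C z).length ≤ G0)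
    (hr : ∀ z, numB (C z) ≤ r) :
    ∃ Ce : Finset (List Bool) → Oracle → Prop,
      (∀ (H : Finset (List Bool)) (A A' : Oracle), (∀ z ∈ H, A z = A' z) → Ce H A → Ce H A') ∧
      (∀ H A, Ce H A → H ⊆ Ev q ∧ H.card ≤ bd r k t q h ℓ G0) ∧
      MeasurableSet {A : Oracle | (YesE W α M C b m u (mix A B) ∧ ∀ H, ¬ Ce H A) ∨
        (NoE W β M C b m u (mix A B) ∧ ∃ H, Ce H A)} ∧
      randomOracle.real {A : Oracle | (YesE W α M C b m u (mix A B) ∧ ∀ H, ¬ Ce H A) ∨
        (NoE W β M C b m u (mix A B) ∧ ∃ H, Ce H A)} ≤ (1 / 2) ^ h := by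
  have hS' : ∀ A : Oracle, ∃ S : Finset (List Bool), S.card ≤ t ∧ S ⊆ Ev q ∧
      ∀ A' : Oracle, (∀ z ∈ S, A' z = A z) → M.out (mix A' B) u = M.out (mix A B) u := by
    intro A
    obtain ⟨S, h1, h2, h3⟩ := hS (mix A B)
    refine ⟨S.filter fun z => z.length % 2 = 0,
      (Finset.card_le_card (Finset.filter_subset _ _)).trans h1, ?_, ?_⟩
    · intro z hz
      rw [Finset.mem_filter] at hz
      exact mem_Ev.2 ⟨h2 z hz.1, hz.2⟩
    · intro A' hA
      refine h3 _ fun z hz => ?_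
      by_cases he : z.length % 2 = 0
      · rw [mix_even he, mix_even he]
        exact hA z (Finset.mem_filter.2 ⟨hz, he⟩)
      · rw [mix_odd he, mix_odd he]
  choose S hS1 hS2 hS3 using hS'
  have hcirc : ∀ A A' : Oracle, (∀ z ∈ S A, A' z = A z) →
      cir M C (mix A' B) u = cir M C (mix A B) u := by
    intro A A' hA
    unfold cir
    rw [hS3 A A' hA]
  have hlen : ∀ (O : Oracle) q' t', Sum.inr (Sum.inr (q', t')) ∈ cir M C O u →
      q'.length ≤ q ∧ t'.length ≤ ℓ ∧ ∀ e ∈ t', q'.length + e.1.length ≤ q := by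
    intro O q' t' hk
    unfold cir at hk
    cases ho : M.out O u with
    | none => rw [ho] at hk; simp at hk
    | some z => rw [ho] at hk; exact hq O z ho q' t' hk
  have hG' : ∀ O : Oracle, (cir M C O u).length ≤ G0 := by
    intro O
    unfold cir
    cases ho : M.out O u with
    | none => exact Nat.zero_le _
    | some z => exact hG O z ho
  have hnum : ∀ O : Oracle, numB (cir M C O u) ≤ r := by
    intro O
    unfold cir
    cases M.out O u with
    | none => exact Nat.zero_le _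
    | some z => exact hr z
  have hmix : ∀ A A' : Oracle, (∀ z ∈ Ev q, A z = A' z) → ∀ z : List Bool, z.length ≤ q →
      mix A B z = mix A' B z := by
    intro A A' hA z hz
    by_cases he : z.length % 2 = 0
    · rw [mix_even he, mix_even he]
      exact hA z (mem_Ev.2 ⟨hz, he⟩)
    · rw [mix_odd he, mix_odd he]
  have hacc : ∀ A A' : Oracle, (∀ z ∈ Ev q, A z = A' z) → ∀ ψ : (Fin b → Bool) → ℂ,
      acc (mix A' B) (cir M C (mix A' B) u) m ψ = acc (mix A B) (cir M C (mix A B) u) m ψ := by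
    intro A A' hA ψ
    rw [hcirc A A' fun z hz => (hA z (hS2 A hz)).symm]
    exact acc_local (fun z hz => (hmix A A' hA z hz).symm) _
      (fun q' t' hk => (hlen _ q' t' hk).2.2) ψ
  set R : ℝ := (r : ℝ) + 1 with hR
  have hr0 : (0 : ℝ) ≤ r := Nat.cast_nonneg r
  have hR1 : 1 ≤ R := by linarith
  have hR0 : 0 < R := by linarith
  have ht0 : (0 : ℝ) ≤ t := Nat.cast_nonneg t
  have hq0 : (0 : ℝ) ≤ q := Nat.cast_nonneg q
  have hh0 : (0 : ℝ) ≤ h := Nat.cast_nonneg h
  have hℓ1 : (1 : ℝ) ≤ ℓ := by exact_mod_cast hℓ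
  set Q : Oracle → Fin G0 × {z // z ∈ Sq q} → ℝ := fun A ρ =>
    if hy : YesE W α M C b m u (mix A B) then
      ∑ c : Bool, bw (mix A B) (cir M C (mix A B) u) (load m (cpt hy.choose c)) ρ.1 ρ.2.1 else 0
    with hQ
  obtain ⟨μ, hμ⟩ : ∃ μ : ℕ, μ = G0 * (q + 1) + 1 := ⟨_, rfl⟩
  have hμ1 : 1 ≤ μ := by omega
  have hμ2 : (1 : ℝ) ≤ μ := by exact_mod_cast hμ1
  have hk0 : (0 : ℝ) < k := by exact_mod_cast hk
  have hk1 : (1 : ℝ) ≤ k := by exact_mod_cast hk
  have hk2 : (1 : ℝ) ≤ (k : ℝ) ^ 2 := one_le_pow₀ hk1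
  have hkR : (1 : ℝ) ≤ (k : ℝ) ^ 2 * R := one_le_mul_of_one_le_of_one_le hk2 hR1
  obtain ⟨J, hJ⟩ : ∃ J, J = Jr r k := ⟨_, rfl⟩
  have hJ1 : 1 ≤ J := by
    rw [hJ]
    unfold Jr
    exact Nat.succ_le_of_lt (by positivity)
  have hJ' : (J : ℝ) = 32 * (k : ℝ) ^ 2 * R ^ 2 := by
    rw [hJ, hR]
    unfold Jr
    push_cast
    ring
  set G : ℝ := 16 * (μ * ℓ * R) * (2 * (t + ℓ * R) * (q + 2) + 2 * (2 * J + h)) *
    (16 * (k : ℝ) ^ 2 * R) ^ 2 with hGd
  have hJ0 : (0 : ℝ) < J := by rw [hJ']; positivity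
  have hbase : 1 ≤ 2 * ((t : ℝ) + ℓ * R) * (q + 2) + 2 * (2 * J + h) := by
    have h1 : 1 ≤ (ℓ : ℝ) * R := one_le_mul_of_one_le_of_one_le hℓ1 hR1
    have h2 : 0 ≤ ((t : ℝ) + ℓ * R) * q := mul_nonneg (by linarith) hq0
    nlinarith
  have hμR : 1 ≤ (μ : ℝ) * ℓ * R :=
    one_le_mul_of_one_le_of_one_le (one_le_mul_of_one_le_of_one_le hμ2 hℓ1) hR1
  obtain ⟨Ce, h1, h2, h3, h4⟩ := orc (P := Fin G0 × {z // z ∈ Sq q}) (Ev q) q (card_Ev q)
    (fun A => YesE W α M C b m u (mix A B)) (fun A => NoE W β M C b m u (mix A B)) S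
    (fun A ρ => blk (cir M C (mix A B) u) ρ.1 ρ.2.1) Q
    (fun A A' hA => by
      rintro ⟨ψ, h0, h1, h2⟩
      refine ⟨ψ, h0, h1, ?_⟩
      rw [hacc A A' hA]
      exact h2)
    (fun A A' hA hN ψ h0 h1 => by
      rw [hacc A A' hA]
      exact hN ψ h0 h1)
    (fun A ρ => by
      simp only [hQ]
      split_ifs
      · exact Finset.sum_nonneg fun c _ => bw_nonneg _ _ _ _ _
      · exact le_rfl)
    R (1 / (16 * (k : ℝ) ^ 2 * R)) t ℓ μ hR0 hℓ hμ1
    (fun A hy => by
      simp only [hQ, dif_pos hy]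
      rw [Finset.sum_comm]
      have h1 : ∀ c : Bool, ∑ ρ : Fin G0 × {z // z ∈ Sq q}, bw (mix A B) (cir M C (mix A B) u)
          (load m (cpt hy.choose c)) ρ.1 ρ.2.1 ≤ numB (cir M C (mix A B) u) *
            ∑ s, load m (cpt hy.choose c) s ^ 2 := by
        intro c
        rw [sum_P G0 q (fun i z => bw (mix A B) (cir M C (mix A B) u)
          (load m (cpt hy.choose c)) i z)]
        exact sum_bw_le _ _ _ _ _
      refine (Finset.sum_le_sum fun c _ => h1 c).trans ?_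
      rw [← Finset.mul_sum, norm_cpt, hy.choose_spec.2.1, mul_one]
      have h5 : ((numB (cir M C (mix A B) u) : ℕ) : ℝ) ≤ r := by exact_mod_cast hnum (mix A B)
      linarith)
    (fun A _ => hS1 A) (fun A _ => hS2 A)
    (fun A _ ρ => card_blk (fun q' t' hk => (hlen (mix A B) q' t' hk).2.1) _ _)
    (fun A _ ρ y hy => by
      obtain ⟨q', t', h5, h6, ⟨e, he, rfl⟩, h7⟩ := mem_blk hy
      refine mem_Ev.2 ⟨?_, h7⟩
      rw [List.length_append, h6]
      exact (hlen (mix A B) q' t' h5).2.2 e he)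
    (fun A _ y => by
      rw [hμ]
      exact mult _ _ _ _)
    (by positivity)
    (fun A A' hY hN hag => by
      have hag' : ∀ z ∈ S A, A' z = A z := fun z hz => (hag z hz).symm
      have hc := hcirc A A' hag'
      obtain ⟨hu0, hu1, hu2⟩ := hY.choose_spec
      have hu3 := hN hY.choose hu0 hu1
      rw [hc] at hu3
      rw [acc_cpt] at hu2 hu3
      have h5 := weight_far (mix A B) (mix A' B) (Sq q)
        (fun z hz => by rw [mix_odd hz, mix_odd hz]) (cir M C (mix A B) u)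
        (fun q' t' hk z hz => mem_Sq.2 (by rw [hz]; exact (hlen (mix A B) q' t' hk).1)) b
        (fun c => load m (cpt hY.choose c)) (by rw [norm_cpt, hu1]) α β k hk0 hαβ hu2 hu3 R
        hR0 (by
          have : ((numB (cir M C (mix A B) u) : ℕ) : ℝ) ≤ r := by exact_mod_cast hnum _
          linarith)
      refine h5.trans (le_of_eq ?_)
      have h6 : ∀ c : Bool, tw (mix A B) (mix A' B) (Sq q) (cir M C (mix A B) u)
          (load m (cpt hY.choose c)) = ∑ ρ : Fin G0 × {z // z ∈ Sq q},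
            bw (mix A B) (cir M C (mix A B) u) (load m (cpt hY.choose c)) ρ.1 ρ.2.1 *
              ind (∃ y ∈ blk (cir M C (mix A B) u) ρ.1 ρ.2.1, A y ≠ A' y) := by
        intro c
        rw [tw_eq _ _ _ _ _ G0 (hG' (mix A B)), sum_P G0 q (fun i z =>
          bw (mix A B) (cir M C (mix A B) u) (load m (cpt hY.choose c)) i z *
              ind (∃ y ∈ blk (cir M C (mix A B) u) i z, A y ≠ A' y))]
        refine Finset.sum_congr rfl fun i _ => Finset.sum_congr rfl fun z _ => ?_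
        congr 1
        refine congrArg ind (propext ⟨?_, ?_⟩)
        · rintro ⟨y, hy, hne⟩
          obtain ⟨-, -, -, -, -, h7⟩ := mem_blk hy
          rw [mix_even h7, mix_even h7] at hne
          exact ⟨y, hy, hne⟩
        · rintro ⟨y, hy, hne⟩
          obtain ⟨-, -, -, -, -, h7⟩ := mem_blk hy
          refine ⟨y, hy, ?_⟩
          rw [mix_even h7, mix_even h7]
          exact hne
      rw [Finset.sum_congr rfl fun c _ => h6 c, Finset.sum_comm]
      refine Finset.sum_congr rfl fun ρ _ => ?_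
      simp only [hQ, dif_pos hY]
      rw [Finset.sum_mul])
    J hJ1
    (by
      rw [hJ']
      have e : 32 * (k : ℝ) ^ 2 * R ^ 2 * (1 / (16 * (k : ℝ) ^ 2 * R)) = 2 * R := by
        field_simp
        norm_num
      rw [e])
    ((1 / 2) ^ h) G (by positivity) (pow_le_one₀ (by norm_num) (by norm_num))
    (by
      have h5 : 1 ≤ 16 * ((μ : ℝ) * ℓ * R) := by linarith
      have h6 : 1 ≤ (16 * (k : ℝ) ^ 2 * R) ^ 2 := one_le_pow₀ (by nlinarith)
      have h7 := one_le_mul_of_one_le_of_one_le h5 hbase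
      exact one_le_mul_of_one_le_of_one_le h7 h6)
    (by
      have h5 : Real.log (2 * J / (1 / 2) ^ h) ≤ 2 * J + h := by
        rw [Real.log_div (by positivity) (by positivity), Real.log_pow]
        have h6 : Real.log (2 * (J : ℝ)) ≤ 2 * J :=
          (Real.log_le_sub_one_of_pos (by positivity)).trans (by linarith)
        have h7 : Real.log (1 / 2) = - Real.log 2 := by
          rw [one_div, Real.log_inv]
        have h8 : Real.log 2 ≤ 1 := by
          have := Real.log_two_lt_d9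
          linarith
        rw [h7]
        nlinarith
      have h6 : (1 / (16 * (k : ℝ) ^ 2 * R)) ^ 2 * G = 16 * (μ * ℓ * R) *
          (2 * (t + ℓ * R) * (q + 2) + 2 * (2 * J + h)) := by
        simp only [hGd]
        field_simp
      rw [h6]
      gcongr)
  refine ⟨Ce, h1, ?_, h3, h4⟩
  intro H A hc
  obtain ⟨h5, h6⟩ := h2 H A hc
  refine ⟨h5, ?_⟩
  have h7 : ((bd r k t q h ℓ G0 : ℕ) : ℝ) = (t : ℝ) + ℓ * R * G ^ J := by
    have e : ((Gr r k t q h ℓ G0 : ℕ) : ℝ) = G := by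
      unfold Gr
      rw [hGd, hJ', hR, hμ]
      push_cast
      ring
    unfold bd
    rw [← hJ, Nat.cast_add, Nat.cast_mul, Nat.cast_pow, e]
    push_cast
    rw [hR]
  have h8 : (H.card : ℝ) ≤ ((bd r k t q h ℓ G0 : ℕ) : ℝ) := by
    rw [h7]
    exact h6
  exact_mod_cast h8

end Pool.Agent.W938.QB
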