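import Pool.Agent.W938.QB.Dev
import Pool.Agent.W938.QX.Fam

/-!
# The families of certificates of one verifier
-/

set_option autoImplicit false
set_option linter.unusedSectionVars false

namespace Pool.Agent.W938.QB

open Finset Pool.Agent.NPC Pool.Agent.H620R2.Gauge Pool.Agent.W938.Hyb
open Pool.Agent.H628R3.RO (randomOracle)
open Pool.Agent.W938.QM (Sq mem_Sq card_Sq Agree)
open Pool.Agent.W938.QX (mix Ev mem_Ev)

/-- The polynomial versions of the parameters. -/
lemma bd_eval (r k : ℕ) (t q h ℓ g : Polynomial ℕ) (n : ℕ) :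
    (bd r k t q h ℓ g).eval n =
      bd r k (t.eval n) (q.eval n) (h.eval n) (ℓ.eval n) (g.eval n) := by
  have e : (Gr r k t q h ℓ g).eval n =
      Gr r k (t.eval n) (q.eval n) (h.eval n) (ℓ.eval n) (g.eval n) := by
    unfold Gr
    simp only [Polynomial.eval_mul, Polynomial.eval_add, Polynomial.eval_pow,
      Polynomial.eval_natCast, Polynomial.eval_one, Polynomial.eval_ofNat]
  unfold bd
  rw [Polynomial.eval_add, Polynomial.eval_mul, Polynomial.eval_pow, e, Polynomial.eval_mul]
  simp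

/-- The sizes of the circuits are polynomially bounded. -/
lemma ops_bound {C : List Bool → List Op} (hC : PolyTime (fun z => bits (C z))) :
    ∃ b : Polynomial ℕ, ∀ z, (C z).length ≤ b.eval z.length ∧
      ∀ q t, Sum.inr (Sum.inr (q, t)) ∈ C z → q.length ≤ b.eval z.length ∧
        t.length ≤ b.eval z.length ∧ ∀ e ∈ t, q.length + e.1.length ≤ b.eval z.length := by
  obtain ⟨q, hq⟩ := (Pool.Agent.H622R2.poly_of_polyTime hC).sz_le
  refine ⟨q.comp (Polynomial.C 4 * Polynomial.X + Polynomial.C 1), fun x => ?_⟩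
  have h0 : sz (C x) ≤ (q.comp (Polynomial.C 4 * Polynomial.X + Polynomial.C 1)).eval x.length := by
    have h1 := length_lt_sz (bits (C x))
    rw [bits_length] at h1
    refine h1.le.trans ((hq _).trans ?_)
    rw [Polynomial.eval_comp]
    apply eval_mono
    have h2 := sz_listBool_le x
    simp only [Polynomial.eval_add, Polynomial.eval_mul, Polynomial.eval_C, Polynomial.eval_X]
    omega
  refine ⟨(length_lt_sz (C x)).le.trans h0, ?_⟩
  intro q' t' hmem
  have h4 := sz_le_of_mem hmem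
  have h5 := length_lt_sz q'
  have h6 := length_lt_sz t'
  rw [sz_inr, sz_inr, sz_pair] at h4
  refine ⟨by omega, by omega, ?_⟩
  intro e he
  have h7 := sz_le_of_mem he
  have h8 := length_lt_sz e.1
  have h9 : sz e = sz e.1 + sz e.2 + 1 := sz_pair e.1 e.2
  omega

theorem fam (W : ∀ b : ℕ, Set ((Fin b → Bool) → ℂ)) (α β : ℝ) (k : ℕ) (hk : 0 < k)
    (hαβ : 1 / (k : ℝ) ≤ α - β) (M : Alg) (C : List Bool → List Op)
    (p : Polynomial ℕ) (r : ℕ) (hC : PolyTime (fun z => bits (C z)))
    (hr : ∀ z, numB (C z) ≤ r) :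
    ∃ P : Polynomial ℕ,
      (∀ (x : List Bool) (O O' : Oracle), (∀ z : List Bool, z.length ≤ P.eval x.length → O z = O' z) →
        ∀ w : List Bool, w.length ≤ p.eval x.length →
        (YesE W α M C (p.eval x.length) (p.eval x.length) (pairBits w x) O →
          YesE W α M C (p.eval x.length) (p.eval x.length) (pairBits w x) O') ∧
        (NoE W β M C (p.eval x.length) (p.eval x.length) (pairBits w x) O →
          NoE W β M C (p.eval x.length) (p.eval x.length) (pairBits w x) O')) ∧
      ∀ (B : Oracle) (x : List Bool), ∃ (T : Set (Finset (List Bool × Bool))) (Bad : Set Oracle),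
      (∀ c ∈ T, c.card ≤ P.eval x.length ∧
        ∀ e ∈ c, e.1.length ≤ P.eval x.length ∧ e.1.length % 2 = 0) ∧
      MeasurableSet Bad ∧ randomOracle.real Bad ≤ (1 / 2) ^ (2 * x.length + 2) ∧
      ∀ A : Oracle, A ∉ Bad →
        ((∃ w : List Bool, w.length ≤ p.eval x.length ∧
          YesE W α M C (p.eval x.length) (p.eval x.length) (pairBits w x) (mix A B)) →
            ∃ c ∈ T, Agree A c) ∧
        ((∀ w : List Bool, w.length ≤ p.eval x.length →
          NoE W β M C (p.eval x.length) (p.eval x.length) (pairBits w x) (mix A B)) →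
            ¬ ∃ c ∈ T, Agree A c) := by
  classical
  obtain ⟨qb, hqb⟩ := M.out_local
  obtain ⟨ob, hob⟩ := M.out_length
  obtain ⟨cb, hcb⟩ := ops_bound hC
  set ln : Polynomial ℕ := 2 * p + 1 + Polynomial.X with hln
  have hlen : ∀ w x : List Bool, w.length ≤ p.eval x.length →
      (pairBits w x).length ≤ ln.eval x.length := by
    intro w x hw
    rw [length_pairBits]
    simp only [hln, Polynomial.eval_add, Polynomial.eval_mul, Polynomial.eval_one,
      Polynomial.eval_X, Polynomial.eval_ofNat]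
    omega
  set t : Polynomial ℕ := M.p.comp ln with ht
  set q : Polynomial ℕ := qb.comp ln + cb.comp (ob.comp ln) with hq
  set h : Polynomial ℕ := p + 2 * Polynomial.X + 3 with hh
  set ℓ : Polynomial ℕ := cb.comp (ob.comp ln) + 1 with hℓ
  have hS : ∀ w x : List Bool, w.length ≤ p.eval x.length → ∀ O : Oracle,
      ∃ S : Finset (List Bool), S.card ≤ t.eval x.length ∧ (∀ z ∈ S, z.length ≤ q.eval x.length) ∧
      ∀ O' : Oracle, (∀ z ∈ S, O' z = O z) → M.out O' (pairBits w x) = M.out O (pairBits w x) := by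
    intro w x hw O
    have hl := hlen w x hw
    obtain ⟨S, h1, h2, h3⟩ := hqb O (pairBits w x)
    refine ⟨S, h1.trans ?_, fun z hz => (h2 z hz).trans ?_, h3⟩
    · rw [ht, Polynomial.eval_comp]
      exact eval_mono _ hl
    · rw [hq, QM.ev]
      exact (eval_mono _ hl).trans (Nat.le_add_right _ _)
  have hcb' : ∀ w x : List Bool, w.length ≤ p.eval x.length → ∀ (O : Oracle) z,
      M.out O (pairBits w x) = some z →
      cb.eval z.length ≤ cb.eval (ob.eval (ln.eval x.length)) := by
    intro w x hw O z hz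
    have hl := hlen w x hw
    have h2 := hob O _ z hz
    exact eval_mono cb (h2.trans (eval_mono ob hl))
  have hℓe : ∀ n : ℕ, ℓ.eval n = cb.eval (ob.eval (ln.eval n)) + 1 := by
    intro n
    rw [hℓ, Polynomial.eval_add, Polynomial.eval_comp, Polynomial.eval_comp, Polynomial.eval_one]
  have hg : ∀ w x : List Bool, w.length ≤ p.eval x.length → ∀ (O : Oracle) z,
      M.out O (pairBits w x) = some z → ∀ q' t', Sum.inr (Sum.inr (q', t')) ∈ C z →
      q'.length ≤ q.eval x.length ∧ t'.length ≤ ℓ.eval x.length ∧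
        ∀ e ∈ t', q'.length + e.1.length ≤ q.eval x.length := by
    intro w x hw O z hz q' t' hk
    obtain ⟨h1, h2, h3⟩ := (hcb z).2 q' t' hk
    have h4 := hcb' w x hw O z hz
    rw [hℓe, hq, QM.ev]
    refine ⟨by omega, by omega, fun e he => ?_⟩
    have h5 := h3 e he
    omega
  have hg2 : ∀ w x : List Bool, w.length ≤ p.eval x.length → ∀ (O : Oracle) z,
      M.out O (pairBits w x) = some z → (C z).length ≤ ℓ.eval x.length := by
    intro w x hw O z hz
    have h1 := (hcb z).1
    have h4 := hcb' w x hw O z hz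
    rw [hℓe]
    omega
  refine ⟨bd r k t q h ℓ ℓ + q, ?_, fun B x => ?_⟩
  · intro x O O' hO w hw
    have hO' : ∀ z : List Bool, z.length ≤ q.eval x.length → O z = O' z := by
      intro z hz
      refine hO z (hz.trans ?_)
      have e : (bd r k t q h ℓ ℓ + q).eval x.length =
        (bd r k t q h ℓ ℓ).eval x.length + q.eval x.length := Polynomial.eval_add
      rw [e]
      exact Nat.le_add_left _ _
    have h1 : cir M C O' (pairBits w x) = cir M C O (pairBits w x) := by
      obtain ⟨S, -, h2, h3⟩ := hS w x hw O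
      unfold cir
      rw [h3 O' fun z hz => (hO' z (h2 z hz)).symm]
    have h2 : ∀ ψ : (Fin (p.eval x.length) → Bool) → ℂ,
        acc O' (cir M C O' (pairBits w x)) (p.eval x.length) ψ =
          acc O (cir M C O (pairBits w x)) (p.eval x.length) ψ := by
      intro ψ
      rw [h1]
      refine acc_local (fun z hz => (hO' z hz).symm) _ (fun q' t' hk => ?_) ψ
      unfold cir at hk
      cases ho : M.out O (pairBits w x) with
      | none => rw [ho] at hk; simp at hk
      | some y => rw [ho] at hk; exact (hg w x hw O y ho q' t' hk).2.2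
    refine ⟨?_, ?_⟩
    · rintro ⟨ψ, h3, h4, h5⟩
      exact ⟨ψ, h3, h4, by rw [h2]; exact h5⟩
    · intro h3 ψ h4 h5
      rw [h2]
      exact h3 ψ h4 h5
  set n := x.length with hn
  have hd : ∀ w : List Bool, ∃ Ce : Finset (List Bool) → Oracle → Prop, w.length ≤ p.eval n →
      ((∀ (H : Finset (List Bool)) (A A' : Oracle), (∀ z ∈ H, A z = A' z) → Ce H A → Ce H A') ∧
      (∀ H A, Ce H A → H ⊆ Ev (q.eval n) ∧ H.card ≤ bd r k (t.eval n) (q.eval n) (h.eval n)
        (ℓ.eval n) (ℓ.eval n)) ∧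
      MeasurableSet {A : Oracle | (YesE W α M C (p.eval n) (p.eval n) (pairBits w x) (mix A B) ∧
        ∀ H, ¬ Ce H A) ∨ (NoE W β M C (p.eval n) (p.eval n) (pairBits w x) (mix A B) ∧
          ∃ H, Ce H A)} ∧
      randomOracle.real {A : Oracle | (YesE W α M C (p.eval n) (p.eval n) (pairBits w x) (mix A B) ∧
        ∀ H, ¬ Ce H A) ∨ (NoE W β M C (p.eval n) (p.eval n) (pairBits w x) (mix A B) ∧
          ∃ H, Ce H A)} ≤ (1 / 2) ^ (h.eval n)) := by
    intro w
    by_cases hw : w.length ≤ p.eval n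
    · obtain ⟨Ce, hCe⟩ := dev W α β k hk hαβ B M C (p.eval n) (p.eval n) (pairBits w x) r (t.eval n) (q.eval n)
        (h.eval n) (ℓ.eval n) (ℓ.eval n) (by rw [hℓe]; omega) (hS w x hw) (hg w x hw)
        (hg2 w x hw) hr
      exact ⟨Ce, fun _ => hCe⟩
    · exact ⟨fun _ _ => False, fun hw' => absurd hw' hw⟩
  choose Ce hCe using hd
  set D : List Bool → Set Oracle := fun w =>
    {A : Oracle | (YesE W α M C (p.eval n) (p.eval n) (pairBits w x) (mix A B) ∧
        ∀ H, ¬ Ce w H A) ∨ (NoE W β M C (p.eval n) (p.eval n) (pairBits w x) (mix A B) ∧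
          ∃ H, Ce w H A)} with hD
  refine ⟨{c | ∃ w : List Bool, w.length ≤ p.eval n ∧ ∃ (H : Finset (List Bool)) (A : Oracle),
    Ce w H A ∧ c = H.image fun z => (z, A z)}, ⋃ w ∈ Sq (p.eval n), D w, ?_, ?_, ?_, ?_⟩
  · rintro c ⟨w, hw, H, A, hc, rfl⟩
    obtain ⟨h1, h2⟩ := (hCe w hw).2.1 H A hc
    rw [Polynomial.eval_add, bd_eval]
    refine ⟨?_, ?_⟩
    · exact (Finset.card_image_le.trans h2).trans (Nat.le_add_right _ _)
    · intro e he
      obtain ⟨z, hz, rfl⟩ := Finset.mem_image.1 he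
      have h3 := mem_Ev.1 (h1 hz)
      exact ⟨h3.1.trans (Nat.le_add_left _ _), h3.2⟩
  · refine Finset.measurableSet_biUnion _ fun w hw => ?_
    exact (hCe w (mem_Sq.1 hw)).2.2.1
  · refine (MeasureTheory.measureReal_biUnion_finset_le _ _).trans ?_
    have h1 : ∑ w ∈ Sq (p.eval n), randomOracle.real (D w) ≤
        ∑ _w ∈ Sq (p.eval n), ((1 : ℝ) / 2) ^ (h.eval n) :=
      Finset.sum_le_sum fun w hw => (hCe w (mem_Sq.1 hw)).2.2.2
    refine h1.trans ?_
    rw [Finset.sum_const, nsmul_eq_mul]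
    have h2 : ((Sq (p.eval n)).card : ℝ) ≤ 2 ^ (p.eval n + 1) := by
      have := card_Sq (p.eval n)
      have h3 : (Sq (p.eval n)).card ≤ 2 ^ (p.eval n + 1) := by omega
      exact_mod_cast h3
    have h3 : h.eval n = (p.eval n + 1) + (2 * n + 2) := by
      simp only [hh, Polynomial.eval_add, Polynomial.eval_mul, Polynomial.eval_X,
        Polynomial.eval_ofNat]
      omega
    calc ((Sq (p.eval n)).card : ℝ) * ((1 : ℝ) / 2) ^ (h.eval n)
        ≤ 2 ^ (p.eval n + 1) * ((1 : ℝ) / 2) ^ (h.eval n) := by gcongr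
      _ = (1 / 2) ^ (2 * n + 2) := by
          rw [h3, pow_add (1 / 2 : ℝ), ← mul_assoc, ← mul_pow]
          norm_num
  · intro A hA
    have hA' : ∀ w : List Bool, w.length ≤ p.eval n → A ∉ D w := by
      intro w hw hAw
      exact hA (Set.mem_biUnion (Finset.mem_coe.2 (mem_Sq.2 hw)) hAw)
    refine ⟨?_, ?_⟩
    · rintro ⟨w, hw, hy⟩
      have h1 : ∃ H, Ce w H A := by
        by_contra hc
        exact hA' w hw (Or.inl ⟨hy, fun H hH => hc ⟨H, hH⟩⟩)
      obtain ⟨H, hH⟩ := h1
      refine ⟨H.image fun z => (z, A z), ⟨w, hw, H, A, hH, rfl⟩, ?_⟩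
      intro e he
      obtain ⟨z, -, rfl⟩ := Finset.mem_image.1 he
      rfl
    · rintro hno ⟨c, ⟨w, hw, H, A', hH, rfl⟩, hag⟩
      refine hA' w hw (Or.inr ⟨hno w hw, H, ?_⟩)
      refine (hCe w hw).1 H A' A ?_ hH
      intro z hz
      exact (hag (z, A' z) (Finset.mem_image_of_mem _ hz)).symm

end Pool.Agent.W938.QB
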