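import Pool.Agent.W938.QB.Defs
import Pool.Agent.W938.QX.Dev

/-!
# The weights of the questions, and the distance of the runs for two oracles
-/

set_option autoImplicit false
set_option linter.unusedSectionVars false

namespace Pool.Agent.W938.QB

open Finset Pool.Agent.H620R2.Gauge Pool.Agent.W938.Hyb
open Pool.Agent.H703R2.AA Pool.Agent.H703R2.AA.Pr

variable {m : ℕ}

lemma par_not_mem (O : Oracle) (z : List Bool) (i : ℕ) : ∀ t : List (List Bool × ℕ),
    i ∉ t.map Prod.snd → par O z t i = false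
  | [], _ => rfl
  | e :: t, h => by
    rw [List.map_cons, List.mem_cons, not_or] at h
    have ih := par_not_mem O z i t h.2
    have h1 : decide (e.2 = i) = false := decide_eq_false (fun he => h.1 he.symm)
    unfold par at ih ⊢
    rw [List.foldr_cons, ih, h1]
    rfl

lemma par_congr {O O' : Oracle} {z : List Bool} (i : ℕ) : ∀ t : List (List Bool × ℕ),
    (∀ e ∈ t, O (z ++ e.1) = O' (z ++ e.1)) → par O z t i = par O' z t i
  | [], _ => rfl
  | e :: t, h => by
    have ih := par_congr i t (fun e he => h e (List.mem_cons_of_mem _ he))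
    unfold par at ih ⊢
    rw [List.foldr_cons, List.foldr_cons, ih, h e List.mem_cons_self]

lemma clr_ask (O : Oracle) (q : List ℕ) (t : List (List Bool × ℕ)) (s : Fin m → Bool) :
    clr t (ask O q t s) = clr t s := by
  funext i
  unfold clr
  by_cases h : (i : ℕ) ∈ t.map Prod.snd
  · rw [if_pos h, if_pos h]
  · rw [if_neg h, if_neg h]
    unfold ask
    rw [par_not_mem _ _ _ _ h, Bool.xor_false]

lemma qs_ask (O : Oracle) (q : List ℕ) (t : List (List Bool × ℕ)) (s : Fin m → Bool) :
    qs q t (ask O q t s) = qs q t s := by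
  unfold qs
  rw [clr_ask]

lemma ask_invol (O : Oracle) (q : List ℕ) (t : List (List Bool × ℕ)) :
    Function.Involutive (ask (m := m) O q t) := by
  intro s
  funext i
  have h := qs_ask O q t s
  show (ask O q t s i ^^ par O (qs q t (ask O q t s)) t i) = s i
  rw [h]
  show ((s i ^^ par O (qs q t s) t i) ^^ par O (qs q t s) t i) = s i
  rw [Bool.xor_assoc, Bool.xor_self, Bool.xor_false]

lemma sum_ask (O : Oracle) (q : List ℕ) (t : List (List Bool × ℕ)) (f : (Fin m → Bool) → ℝ) :
    ∑ s, f (ask O q t s) = ∑ s, f s :=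
  Equiv.sum_comp (ask_invol O q t).toPerm f

lemma op_norm (O : Oracle) (g : Op) (ψ : (Fin m → Bool) → ℝ) :
    ∑ s, opAct O g ψ s ^ 2 = ∑ s, ψ s ^ 2 := by
  rcases g with i | ⟨q, k⟩ | ⟨q, t⟩
  · exact gateAct_norm O (Sum.inl i) ψ
  · exact gateAct_norm O (Sum.inr (false, q, k)) ψ
  · exact sum_ask O q t fun s => ψ s ^ 2

lemma op_sub (O : Oracle) (g : Op) (ψ φ : (Fin m → Bool) → ℝ) :
    opAct O g (fun s => ψ s - φ s) = fun s => opAct O g ψ s - opAct O g φ s := by
  rcases g with i | ⟨q, k⟩ | ⟨q, t⟩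
  · exact gateAct_sub O (Sum.inl i) ψ φ
  · exact gateAct_sub O (Sum.inr (false, q, k)) ψ φ
  · rfl

lemma run_sub (O : Oracle) : ∀ (l : List Op) (ψ φ : (Fin m → Bool) → ℝ),
    run O l (fun s => ψ s - φ s) = fun s => run O l ψ s - run O l φ s
  | [], _, _ => rfl
  | g :: l, ψ, φ => by
    simp only [run]
    rw [op_sub]
    exact run_sub O l _ _

lemma run_norm (O : Oracle) : ∀ (l : List Op) (ψ : (Fin m → Bool) → ℝ),
    ∑ s, run O l ψ s ^ 2 = ∑ s, ψ s ^ 2
  | [], _ => rfl
  | g :: l, ψ => by
    simp only [run]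
    rw [run_norm O l, op_norm]

/-- The weight with which the operation asks the string `z`; only the questions which concern
strings of even length count. -/
def ow : Op → ((Fin m → Bool) → ℝ) → List Bool → ℝ
  | Sum.inr (Sum.inr (q, t)), ψ, z => if evenQ q t then ∑ s, if qs q t s = z then ψ s ^ 2 else 0 else 0
  | _, _, _ => 0

/-- The strings of even length on which the answer to the question `z` depends. -/
def bk : Op → List Bool → Finset (List Bool)
  | Sum.inr (Sum.inr (q, t)), z => if z.length = q.length then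
      ((t.map fun e => z ++ e.1).toFinset).filter fun y => y.length % 2 = 0 else ∅
  | _, _ => ∅

lemma mem_bk {q : List ℕ} {t : List (List Bool × ℕ)} {z y : List Bool} :
    y ∈ bk (Sum.inr (Sum.inr (q, t))) z ↔ z.length = q.length ∧
      (∃ e ∈ t, z ++ e.1 = y) ∧ y.length % 2 = 0 := by
  simp only [bk]
  split_ifs with h
  · rw [Finset.mem_filter, List.mem_toFinset, List.mem_map]
    exact ⟨fun h1 => ⟨h, h1⟩, fun h1 => h1.2⟩
  · exact ⟨fun h1 => absurd h1 (Finset.notMem_empty _), fun h1 => absurd h1.1 h⟩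

lemma ow_nonneg (g : Op) (ψ : (Fin m → Bool) → ℝ) (z : List Bool) : 0 ≤ ow g ψ z := by
  rcases g with i | ⟨q, k⟩ | ⟨q, t⟩
  · exact le_rfl
  · exact le_rfl
  · simp only [ow]
    split_ifs
    · refine Finset.sum_nonneg fun s _ => ?_
      split_ifs
      · positivity
      · exact le_rfl
    · exact le_rfl

lemma sum_ow_le (q : List ℕ) (t : List (List Bool × ℕ)) (ψ : (Fin m → Bool) → ℝ)
    (Z : Finset (List Bool)) :
    ∑ z ∈ Z, ow (Sum.inr (Sum.inr (q, t))) ψ z ≤ (if evenQ q t then 1 else 0) * ∑ s, ψ s ^ 2 := by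
  simp only [ow]
  split_ifs with h
  · rw [Finset.sum_comm, one_mul]
    refine Finset.sum_le_sum fun s _ => ?_
    rw [Finset.sum_ite_eq]
    split_ifs
    · exact le_rfl
    · positivity
  · simp

/-- The weight of the bad questions of one operation. -/
noncomputable def bad1 (O O' : Oracle) (Z : Finset (List Bool)) (g : Op)
    (ψ : (Fin m → Bool) → ℝ) : ℝ :=
  ∑ z ∈ Z, ow g ψ z * ind (∃ y ∈ bk g z, O y ≠ O' y)

lemma bad1_nonneg (O O' : Oracle) (Z : Finset (List Bool)) (g : Op)
    (ψ : (Fin m → Bool) → ℝ) : 0 ≤ bad1 O O' Z g ψ :=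
  Finset.sum_nonneg fun z _ => mul_nonneg (ow_nonneg g ψ z) (ind_nonneg _)

lemma op_diff (O O' : Oracle) (ho : ∀ z : List Bool, ¬ z.length % 2 = 0 → O z = O' z)
    (Z : Finset (List Bool)) (q : List ℕ) (t : List (List Bool × ℕ))
    (hZ : ∀ z : List Bool, z.length = q.length → z ∈ Z) (ψ : (Fin m → Bool) → ℝ) :
    ∑ s, (opAct O (Sum.inr (Sum.inr (q, t))) ψ s - opAct O' (Sum.inr (Sum.inr (q, t))) ψ s) ^ 2
      ≤ 4 * bad1 O O' Z (Sum.inr (Sum.inr (q, t))) ψ := by
  classical
  set D : List Bool → Prop := fun z => ∃ y ∈ bk (Sum.inr (Sum.inr (q, t))) z, O y ≠ O' y with hD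
  have hql : ∀ s : Fin m → Bool, (qs q t s).length = q.length := by
    intro s
    unfold qs
    rw [List.length_map]
  have hbad : ∀ s : Fin m → Bool, ¬ D (qs q t s) → ask O q t s = ask O' q t s := by
    intro s hs
    funext i
    unfold ask
    rw [par_congr (O' := O') (i : ℕ) t]
    intro e he
    by_contra hne
    apply hs
    refine ⟨qs q t s ++ e.1, mem_bk.2 ⟨hql s, ⟨e, he, rfl⟩, ?_⟩, hne⟩
    by_contra hodd
    exact hne (ho _ hodd)
  have heven : ∀ s : Fin m → Bool, D (qs q t s) → evenQ q t = true := by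
    rintro s ⟨y, hy, -⟩
    obtain ⟨h1, ⟨e, he, rfl⟩, h3⟩ := mem_bk.1 hy
    unfold evenQ
    rw [List.any_eq_true]
    refine ⟨e, he, ?_⟩
    rw [List.length_append, hql] at h3
    rw [decide_eq_true_eq]
    exact h3
  have h1 : ∀ s : Fin m → Bool, (opAct O (Sum.inr (Sum.inr (q, t))) ψ s -
      opAct O' (Sum.inr (Sum.inr (q, t))) ψ s) ^ 2 ≤
      (if D (qs q t (ask O q t s)) then 2 * ψ (ask O q t s) ^ 2 else 0) +
        (if D (qs q t (ask O' q t s)) then 2 * ψ (ask O' q t s) ^ 2 else 0) := by
    intro s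
    rw [qs_ask, qs_ask]
    simp only [opAct]
    by_cases hs : D (qs q t s)
    · rw [if_pos hs, if_pos hs]
      nlinarith [sq_nonneg (ψ (ask O q t s) + ψ (ask O' q t s))]
    · rw [if_neg hs, if_neg hs, hbad s hs]
      simp
  refine (Finset.sum_le_sum fun s _ => h1 s).trans (le_of_eq ?_)
  rw [Finset.sum_add_distrib, sum_ask O q t (fun s => if D (qs q t s) then 2 * ψ s ^ 2 else 0),
    sum_ask O' q t (fun s => if D (qs q t s) then 2 * ψ s ^ 2 else 0)]
  have h2 : bad1 O O' Z (Sum.inr (Sum.inr (q, t))) ψ =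
      ∑ s, if D (qs q t s) then ψ s ^ 2 else 0 := by
    unfold bad1
    have h3 : ∀ z ∈ Z, ow (Sum.inr (Sum.inr (q, t))) ψ z * ind (D z) =
        ∑ s, if qs q t s = z then (if D (qs q t s) then ψ s ^ 2 else 0) else 0 := by
      intro z _
      by_cases hz : D z
      · have e : ind (D z) = 1 := by
          unfold ind
          rw [if_pos hz]
        rw [e, mul_one]
        simp only [ow]
        by_cases he : evenQ q t = true
        · rw [if_pos he]
          refine Finset.sum_congr rfl fun s _ => ?_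
          by_cases hs : qs q t s = z
          · rw [if_pos hs, if_pos hs, hs, if_pos hz]
          · rw [if_neg hs, if_neg hs]
        · rw [if_neg he]
          refine (Finset.sum_eq_zero fun s _ => ?_).symm
          by_cases hs : qs q t s = z
          · rw [if_pos hs, if_neg (fun h => he (heven s h))]
          · rw [if_neg hs]
      · have e : ind (D z) = 0 := by
          unfold ind
          rw [if_neg hz]
        rw [e, mul_zero]
        refine (Finset.sum_eq_zero fun s _ => ?_).symm
        by_cases hs : qs q t s = z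
        · rw [if_pos hs, hs, if_neg hz]
        · rw [if_neg hs]
    rw [Finset.sum_congr rfl h3, Finset.sum_comm]
    refine Finset.sum_congr rfl fun s _ => ?_
    rw [Finset.sum_ite_eq, if_pos (hZ _ (hql s))]
  rw [h2, Finset.mul_sum, ← Finset.sum_add_distrib]
  refine Finset.sum_congr rfl fun s _ => ?_
  split_ifs
  · ring
  · ring

/-- The total weight of the bad questions. -/
noncomputable def tw (O O' : Oracle) (Z : Finset (List Bool)) :
    List Op → ((Fin m → Bool) → ℝ) → ℝ
  | [], _ => 0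
  | g :: l, ψ => bad1 O O' Z g ψ + tw O O' Z l (opAct O g ψ)

lemma tw_nonneg (O O' : Oracle) (Z : Finset (List Bool)) : ∀ (l : List Op)
    (ψ : (Fin m → Bool) → ℝ), 0 ≤ tw O O' Z l ψ
  | [], _ => le_rfl
  | g :: l, ψ => add_nonneg (bad1_nonneg O O' Z g ψ) (tw_nonneg O O' Z l _)

/-- The distance of the final states, for oracles which agree on the strings of odd length. -/
lemma run_diff (A A' : Oracle) (Z : Finset (List Bool))
    (ho : ∀ z : List Bool, ¬ z.length % 2 = 0 → A z = A' z) : ∀ (l : List Op)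
    (_ : ∀ q t, Sum.inr (Sum.inr (q, t)) ∈ l → ∀ z : List Bool, z.length = q.length → z ∈ Z)
    (ψ : (Fin m → Bool) → ℝ),
    ∑ s, (run A l ψ s - run A' l ψ s) ^ 2 ≤ numB l * (4 * tw A A' Z l ψ)
  | [], _, ψ => by simp [run, numB]
  | g :: l, hZ, ψ => by
    have ih := run_diff A A' Z ho l (fun q t hq => hZ q t (List.mem_cons_of_mem _ hq)) (opAct A g ψ)
    simp only [run, tw]
    have hsame : (opAct A g ψ = opAct A' g ψ) → numB (g :: l) = numB l →
        ∑ s, (run A l (opAct A g ψ) s - run A' l (opAct A' g ψ) s) ^ 2 ≤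
          (numB (g :: l) : ℝ) * (4 * (bad1 A A' Z g ψ + tw A A' Z l (opAct A g ψ))) := by
      intro h1 h2
      rw [← h1, h2]
      refine ih.trans ?_
      have h3 := bad1_nonneg A A' Z g ψ
      have h4 : (0 : ℝ) ≤ numB l := Nat.cast_nonneg _
      refine mul_le_mul_of_nonneg_left ?_ h4
      linarith
    rcases g with i | ⟨q, k⟩ | ⟨q, t⟩
    · exact hsame rfl rfl
    · exact hsame rfl rfl
    · have hg := op_diff A A' ho Z q t (hZ q t List.mem_cons_self) ψ
      by_cases hq : evenQ q t = true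
      · have hb : ∑ s, (run A' l (opAct A (Sum.inr (Sum.inr (q, t))) ψ) s -
            run A' l (opAct A' (Sum.inr (Sum.inr (q, t))) ψ) s) ^ 2 ≤
            4 * bad1 A A' Z (Sum.inr (Sum.inr (q, t))) ψ := by
          have e : (fun s => run A' l (opAct A (Sum.inr (Sum.inr (q, t))) ψ) s -
              run A' l (opAct A' (Sum.inr (Sum.inr (q, t))) ψ) s) = run A' l (fun s =>
              opAct A (Sum.inr (Sum.inr (q, t))) ψ s - opAct A' (Sum.inr (Sum.inr (q, t))) ψ s) := by
            rw [run_sub]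
          have e2 := run_norm A' l (fun s =>
              opAct A (Sum.inr (Sum.inr (q, t))) ψ s - opAct A' (Sum.inr (Sum.inr (q, t))) ψ s)
          rw [← e] at e2
          rw [e2]
          exact hg
        set W1 := bad1 A A' Z (Sum.inr (Sum.inr (q, t))) ψ with hW1
        set W2 := tw A A' Z l (opAct A (Sum.inr (Sum.inr (q, t))) ψ) with hW2
        have hW1n : 0 ≤ W1 := bad1_nonneg _ _ _ _ _
        have hW2n : 0 ≤ W2 := tw_nonneg _ _ _ _ _
        have hnum : numB (Sum.inr (Sum.inr (q, t)) :: l) = numB l + 1 := by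
          simp only [numB, hq, if_true]
        rw [hnum]
        set c : ℝ := (numB l : ℝ) with hc
        have hc0 : 0 ≤ c := Nat.cast_nonneg _
        push_cast
        rw [← hc]
        set a : (Fin m → Bool) → ℝ := fun s =>
          run A l (opAct A (Sum.inr (Sum.inr (q, t))) ψ) s -
            run A' l (opAct A (Sum.inr (Sum.inr (q, t))) ψ) s with ha
        set d : (Fin m → Bool) → ℝ := fun s =>
          run A' l (opAct A (Sum.inr (Sum.inr (q, t))) ψ) s -
            run A' l (opAct A' (Sum.inr (Sum.inr (q, t))) ψ) s with hd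
        have hsum : ∀ s, run A l (opAct A (Sum.inr (Sum.inr (q, t))) ψ) s -
            run A' l (opAct A' (Sum.inr (Sum.inr (q, t))) ψ) s = a s + d s := by
          intro s
          simp only [ha, hd]
          ring
        simp only [hsum]
        change ∑ s, a s ^ 2 ≤ c * (4 * W2) at ih
        change ∑ s, d s ^ 2 ≤ 4 * W1 at hb
        rcases hc0.eq_or_lt with h0 | hpos
        · rw [← h0, zero_mul] at ih
          have ha0 : ∀ s, a s = 0 := by
            intro s
            have h1 := Finset.single_le_sum (f := fun s => a s ^ 2) (fun s _ => sq_nonneg _)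
              (Finset.mem_univ s)
            have h2 : a s ^ 2 ≤ 0 := h1.trans ih
            exact pow_eq_zero_iff (two_ne_zero) |>.1 (le_antisymm h2 (sq_nonneg _))
          simp only [ha0, zero_add]
          rw [← h0]
          linarith
        · have h1 : ∀ s, (a s + d s) ^ 2 ≤ (c + 1) / c * a s ^ 2 + (c + 1) * d s ^ 2 := by
            intro s
            have h2 : (c + 1) / c * a s ^ 2 + (c + 1) * d s ^ 2 - (a s + d s) ^ 2 =
                (a s - c * d s) ^ 2 / c := by
              field_simp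
              ring
            have h3 : 0 ≤ (a s - c * d s) ^ 2 / c := by positivity
            linarith
          calc ∑ s, (a s + d s) ^ 2 ≤ ∑ s, ((c + 1) / c * a s ^ 2 + (c + 1) * d s ^ 2) :=
                Finset.sum_le_sum fun s _ => h1 s
            _ = (c + 1) / c * ∑ s, a s ^ 2 + (c + 1) * ∑ s, d s ^ 2 := by
                rw [Finset.sum_add_distrib, Finset.mul_sum, Finset.mul_sum]
            _ ≤ (c + 1) / c * (c * (4 * W2)) + (c + 1) * (4 * W1) := by gcongr
            _ = (c + 1) * (4 * (W1 + W2)) := by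
                field_simp
                ring
      · refine hsame ?_ ?_
        · funext s
          simp only [opAct]
          congr 1
          funext i
          unfold ask
          rw [par_congr (O' := A') (i : ℕ) t]
          intro e he
          refine ho _ fun hlen => hq ?_
          unfold evenQ
          rw [List.any_eq_true]
          refine ⟨e, he, ?_⟩
          rw [List.length_append] at hlen
          unfold qs at hlen
          rw [List.length_map] at hlen
          rw [decide_eq_true_eq]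
          exact hlen
        · have hq' : evenQ q t = false := by simpa using hq
          simp only [numB, hq', Bool.false_eq_true, if_false, add_zero]

/-! ### The weights, with the number of the operation as an index -/

/-- The weight with which the operation number `g` asks the string `z`. -/
noncomputable def bw (O : Oracle) : List Op → ((Fin m → Bool) → ℝ) → ℕ → List Bool → ℝ
  | [], _, _, _ => 0
  | g :: _, ψ, 0, z => ow g ψ z
  | g :: l, ψ, i + 1, z => bw O l (opAct O g ψ) i z

/-- The strings of even length on which the answer to the question `z` of the operation number `g`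
depends. -/
def blk : List Op → ℕ → List Bool → Finset (List Bool)
  | [], _, _ => ∅
  | g :: _, 0, z => bk g z
  | _ :: l, i + 1, z => blk l i z

lemma bw_nonneg (O : Oracle) : ∀ (l : List Op) (ψ : (Fin m → Bool) → ℝ) (i : ℕ) (z : List Bool),
    0 ≤ bw O l ψ i z
  | [], _, _, _ => le_rfl
  | g :: _, ψ, 0, z => ow_nonneg g ψ z
  | g :: l, ψ, i + 1, z => bw_nonneg O l _ i z

lemma tw_eq (O O' : Oracle) (Z : Finset (List Bool)) : ∀ (l : List Op) (ψ : (Fin m → Bool) → ℝ)
    (G : ℕ), l.length ≤ G → tw O O' Z l ψ = ∑ i ∈ Finset.range G, ∑ z ∈ Z,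
      bw O l ψ i z * ind (∃ y ∈ blk l i z, O y ≠ O' y)
  | [], ψ, G, _ => by simp [tw, bw]
  | g :: l, ψ, 0, h => by simp at h
  | g :: l, ψ, G + 1, h => by
    rw [Finset.sum_range_succ']
    simp only [tw, bw, blk]
    rw [tw_eq O O' Z l (opAct O g ψ) G (by simpa using h), add_comm]
    rfl

lemma sum_bw_le (O : Oracle) (Z : Finset (List Bool)) : ∀ (l : List Op) (ψ : (Fin m → Bool) → ℝ)
    (G : ℕ), ∑ i ∈ Finset.range G, ∑ z ∈ Z, bw O l ψ i z ≤ numB l * ∑ s, ψ s ^ 2
  | [], ψ, G => by simp [bw, numB]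
  | g :: l, ψ, 0 => by
    simp only [Finset.range_zero, Finset.sum_empty]
    exact mul_nonneg (Nat.cast_nonneg _) (Finset.sum_nonneg fun s _ => sq_nonneg _)
  | g :: l, ψ, G + 1 => by
    rw [Finset.sum_range_succ']
    simp only [bw]
    have ih := sum_bw_le O Z l (opAct O g ψ) G
    rw [op_norm] at ih
    rcases g with i | ⟨q, k⟩ | ⟨q, t⟩
    · simpa [ow, numB] using ih
    · simpa [ow, numB] using ih
    · have h1 := sum_ow_le q t ψ Z
      simp only [numB]
      push_cast
      rw [add_mul]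
      exact add_le_add ih h1

lemma blk_cases : ∀ (l : List Op) (i : ℕ) (z : List Bool), blk l i z = ∅ ∨
    ∃ q t, Sum.inr (Sum.inr (q, t)) ∈ l ∧ blk l i z = bk (Sum.inr (Sum.inr (q, t))) z
  | [], _, _ => Or.inl rfl
  | g :: l, 0, z => by
    rcases g with i | ⟨q, k⟩ | ⟨q, t⟩
    · exact Or.inl rfl
    · exact Or.inl rfl
    · exact Or.inr ⟨q, t, List.mem_cons_self, rfl⟩
  | g :: l, i + 1, z => by
    rcases blk_cases l i z with h | ⟨q, t, h1, h2⟩
    · exact Or.inl h
    · exact Or.inr ⟨q, t, List.mem_cons_of_mem _ h1, h2⟩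

lemma card_blk {l : List Op} {ℓ : ℕ} (hℓ : ∀ q t, Sum.inr (Sum.inr (q, t)) ∈ l → t.length ≤ ℓ)
    (i : ℕ) (z : List Bool) : (blk l i z).card ≤ ℓ := by
  rcases blk_cases l i z with h | ⟨q, t, h1, h2⟩
  · rw [h]
    exact Nat.zero_le _
  · rw [h2]
    simp only [bk]
    split_ifs
    · refine (Finset.card_le_card (Finset.filter_subset _ _)).trans ?_
      refine (List.toFinset_card_le _).trans ?_
      rw [List.length_map]
      exact hℓ q t h1
    · exact Nat.zero_le _

lemma mem_blk {l : List Op} {i : ℕ} {z y : List Bool} (h : y ∈ blk l i z) :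
    ∃ q t, Sum.inr (Sum.inr (q, t)) ∈ l ∧ z.length = q.length ∧ (∃ e ∈ t, z ++ e.1 = y) ∧
      y.length % 2 = 0 := by
  rcases blk_cases l i z with h1 | ⟨q, t, h1, h2⟩
  · rw [h1] at h
    exact absurd h (Finset.notMem_empty _)
  · rw [h2] at h
    obtain ⟨h3, h4, h5⟩ := mem_bk.1 h
    exact ⟨q, t, h1, h3, h4, h5⟩

lemma op_local {O O' : Oracle} {n : ℕ} (h : ∀ z : List Bool, z.length ≤ n → O z = O' z) (g : Op)
    (hg : ∀ q t, g = Sum.inr (Sum.inr (q, t)) → ∀ e ∈ t, q.length + e.1.length ≤ n)
    (ψ : (Fin m → Bool) → ℝ) : opAct O g ψ = opAct O' g ψ := by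
  rcases g with i | ⟨q, k⟩ | ⟨q, t⟩
  · rfl
  · rfl
  · funext s
    simp only [opAct]
    congr 1
    funext i
    unfold ask
    rw [par_congr (O' := O') (i : ℕ) t]
    intro e he
    refine h _ ?_
    unfold qs
    rw [List.length_append, List.length_map]
    exact hg q t rfl e he

lemma run_local {O O' : Oracle} {n : ℕ} (h : ∀ z : List Bool, z.length ≤ n → O z = O' z) :
    ∀ (l : List Op) (_ : ∀ q t, Sum.inr (Sum.inr (q, t)) ∈ l → ∀ e ∈ t,
      q.length + e.1.length ≤ n) (ψ : (Fin m → Bool) → ℝ), run O l ψ = run O' l ψ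
  | [], _, _ => rfl
  | g :: l, hg, ψ => by
    simp only [run]
    rw [op_local h g (fun q t he => hg q t (by rw [he]; exact List.mem_cons_self)) ψ]
    exact run_local h l (fun q t he => hg q t (List.mem_cons_of_mem _ he)) _

/-- The probability that the measurement of the qubit `a` gives `1`, when the circuit starts in the
state `ψ`. -/
noncomputable def accR (a : ℕ) (A : Oracle) (l : List Op) (ψ : (Fin m → Bool) → ℝ) : ℝ :=
  ∑ s, if rd s a then run A l ψ s ^ 2 else 0

/-- If a circuit accepts with probability at least `c` for the oracle `A` and at most `d` for the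
oracle `A'`, where `c - d` is at least `1/k`, then the weight of the questions whose answers differ
is large. -/
lemma weight_far {ι : Type} [Fintype ι] (A A' : Oracle) (Z : Finset (List Bool))
    (ho : ∀ z : List Bool, ¬ z.length % 2 = 0 → A z = A' z) (l : List Op)
    (hZ : ∀ q t, Sum.inr (Sum.inr (q, t)) ∈ l → ∀ z : List Bool, z.length = q.length → z ∈ Z)
    (a : ℕ) (ψ : ι → (Fin m → Bool) → ℝ) (hψ : ∑ j, ∑ s, ψ j s ^ 2 = 1)
    (c d k : ℝ) (hk : 0 < k) (hcd : 1 / k ≤ c - d)
    (h1 : c ≤ ∑ j, accR a A l (ψ j)) (h2 : ∑ j, accR a A' l (ψ j) ≤ d) (R : ℝ)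
    (hR0 : 0 < R) (hR : (numB l : ℝ) ≤ R) :
    1 / (16 * k ^ 2 * R) ≤ ∑ j, tw A A' Z l (ψ j) := by
  have h4 : ∑ j, accR a A l (ψ j) - ∑ j, accR a A' l (ψ j) ≤
      ∑ j, ∑ s, (2 * k * (run A l (ψ j) s - run A' l (ψ j) s) ^ 2 +
        (run A l (ψ j) s ^ 2 + run A' l (ψ j) s ^ 2) / (4 * k)) := by
    rw [← Finset.sum_sub_distrib]
    refine Finset.sum_le_sum fun j _ => ?_
    unfold accR
    rw [← Finset.sum_sub_distrib]
    refine Finset.sum_le_sum fun s _ => ?_
    set u := run A l (ψ j) s
    set v := run A' l (ψ j) s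
    have h5 : u ^ 2 - v ^ 2 ≤ 2 * k * (u - v) ^ 2 + (u ^ 2 + v ^ 2) / (4 * k) := by
      have e : 2 * k * (u - v) ^ 2 + (u ^ 2 + v ^ 2) / (4 * k) - (u ^ 2 - v ^ 2) =
          ((4 * k * (u - v) - (u + v)) ^ 2 + (u - v) ^ 2) / (8 * k) := by
        field_simp
        ring
      have h6 : 0 ≤ ((4 * k * (u - v) - (u + v)) ^ 2 + (u - v) ^ 2) / (8 * k) := by positivity
      linarith
    have h6 : 0 ≤ 2 * k * (u - v) ^ 2 + (u ^ 2 + v ^ 2) / (4 * k) := by positivity
    split_ifs
    · exact h5
    · linarith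
  have h5 : ∀ j, ∑ s, (2 * k * (run A l (ψ j) s - run A' l (ψ j) s) ^ 2 +
        (run A l (ψ j) s ^ 2 + run A' l (ψ j) s ^ 2) / (4 * k)) ≤
      8 * k * R * tw A A' Z l (ψ j) + (∑ s, ψ j s ^ 2) / (2 * k) := by
    intro j
    have h3 := run_diff A A' Z ho l hZ (ψ j)
    rw [Finset.sum_add_distrib, ← Finset.mul_sum, ← Finset.sum_div, Finset.sum_add_distrib,
      run_norm, run_norm]
    set W := tw A A' Z l (ψ j) with hW
    have hW0 : 0 ≤ W := tw_nonneg _ _ _ _ _
    have h7 : (numB l : ℝ) * (4 * W) ≤ R * (4 * W) := mul_le_mul_of_nonneg_right hR (by positivity)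
    have h8 : 2 * k * ∑ s, (run A l (ψ j) s - run A' l (ψ j) s) ^ 2 ≤
        2 * k * (R * (4 * W)) := mul_le_mul_of_nonneg_left (h3.trans h7) (by positivity)
    have h9 : (∑ s, ψ j s ^ 2 + ∑ s, ψ j s ^ 2) / (4 * k) = (∑ s, ψ j s ^ 2) / (2 * k) := by
      field_simp
      ring
    rw [h9]
    linarith
  have h6 := h4.trans (Finset.sum_le_sum fun j _ => h5 j)
  rw [Finset.sum_add_distrib, ← Finset.mul_sum, ← Finset.sum_div, hψ] at h6
  set X := ∑ j, tw A A' Z l (ψ j) with hX
  have h7 : 1 / k ≤ 8 * k * R * X + 1 / (2 * k) := by linarith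
  have h8 : 1 / k - 1 / (2 * k) = 1 / (2 * k) := by
    field_simp
    ring
  have h9 : 1 / (2 * k) ≤ 8 * k * R * X := by linarith
  have h10 : 1 / (16 * k ^ 2 * R) = 1 / (2 * k) / (8 * k * R) := by
    field_simp
    ring
  rw [h10, div_le_iff₀ (by positivity)]
  linarith

end Pool.Agent.W938.QB
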